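import Pool.Agent.RK.Defs
import Pool.Agent.FL.Fixed

/-!
Counting the models of a disjoint union of paths on five vertices, the two end edges of which may
be missing.
-/

namespace Pool.Agent.RK

open Finset

open Pool.Agent.FL (card_restrict Dep sum_prod_bool sum_sum_prod_bool trace_sq_le)

/-- The instance: the first edges are given by `z₁`, the last edges by `z₂`, and the two edges in
the middle are always present. -/
def cfg {n q : ℕ} (p : Fin q → Fin 5 → Fin n) (z₁ z₂ : Fin q → Bool) : Sym2 (Fin n) → Bool :=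
  fun e => decide (∃ i, (z₁ i = true ∧ e = s(p i 0, p i 1)) ∨ e = s(p i 1, p i 2) ∨
    e = s(p i 2, p i 3) ∨ (z₂ i = true ∧ e = s(p i 3, p i 4)))

/-- The local number of models. -/
def hh (a b : Bool) : ℕ := if a = true then (if b = true then 13 else 16) else
  (if b = true then 16 else 20)

/-- The local condition. -/
def cc (a b : Bool) (s : Fin 5 → Bool) : Prop :=
  (a = true → (s 0 = true ∨ s 1 = true)) ∧ (s 1 = true ∨ s 2 = true) ∧
    (s 2 = true ∨ s 3 = true) ∧ (b = true → (s 3 = true ∨ s 4 = true))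

instance (a b : Bool) : DecidablePred (cc a b) := fun s => by unfold cc; infer_instance

theorem card_cc (a b : Bool) : Fintype.card {s : Fin 5 → Bool // cc a b s} = hh a b := by
  cases a <;> cases b <;> decide

theorem models_cfg {n q : ℕ} (p : Fin q → Fin 5 → Fin n)
    (hp : Function.Injective fun w : Fin q × Fin 5 => p w.1 w.2) (z₁ z₂ : Fin q → Bool) :
    32 ^ q * models n (cfg p z₁ z₂) = 2 ^ n * ∏ i, hh (z₁ i) (z₂ i) := by
  classical
  have h1 : models n (cfg p z₁ z₂) = Fintype.card {x : Fin n → Bool //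
      (fun u : Fin q × Fin 5 → Bool => ∀ i, cc (z₁ i) (z₂ i) fun t => u (i, t))
        (fun w => x (p w.1 w.2))} := by
    unfold models
    refine Fintype.card_congr (Equiv.subtypeEquivRight fun x => ?_)
    simp only [cfg, decide_eq_true_eq, cc]
    constructor
    · intro h i
      exact ⟨fun hz => h _ _ ⟨i, Or.inl ⟨hz, rfl⟩⟩, h _ _ ⟨i, Or.inr (Or.inl rfl)⟩,
        h _ _ ⟨i, Or.inr (Or.inr (Or.inl rfl))⟩,
        fun hz => h _ _ ⟨i, Or.inr (Or.inr (Or.inr ⟨hz, rfl⟩))⟩⟩
    · rintro h a b ⟨i, ⟨hz, he⟩ | he | he | ⟨hz, he⟩⟩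
      · rcases Sym2.eq_iff.mp he with ⟨rfl, rfl⟩ | ⟨rfl, rfl⟩
        · exact (h i).1 hz
        · exact ((h i).1 hz).symm
      · rcases Sym2.eq_iff.mp he with ⟨rfl, rfl⟩ | ⟨rfl, rfl⟩
        · exact (h i).2.1
        · exact (h i).2.1.symm
      · rcases Sym2.eq_iff.mp he with ⟨rfl, rfl⟩ | ⟨rfl, rfl⟩
        · exact (h i).2.2.1
        · exact (h i).2.2.1.symm
      · rcases Sym2.eq_iff.mp he with ⟨rfl, rfl⟩ | ⟨rfl, rfl⟩
        · exact (h i).2.2.2 hz
        · exact ((h i).2.2.2 hz).symm
  have h2 := card_restrict (fun w : Fin q × Fin 5 => p w.1 w.2) hp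
    (fun u : Fin q × Fin 5 → Bool => ∀ i, cc (z₁ i) (z₂ i) fun t => u (i, t))
  rw [Fintype.card_prod, Fintype.card_fin, Fintype.card_fin, mul_comm q 5, pow_mul] at h2
  have h3 : Fintype.card {u : Fin q × Fin 5 → Bool // ∀ i, cc (z₁ i) (z₂ i) fun t => u (i, t)} =
      ∏ i, hh (z₁ i) (z₂ i) := by
    rw [← Finset.prod_congr rfl fun i _ => card_cc (z₁ i) (z₂ i), ← Fintype.card_pi]
    refine Fintype.card_congr ?_
    exact
      { toFun := fun u i => ⟨fun t => u.1 (i, t), u.2 i⟩
        invFun := fun w => ⟨fun q => (w q.1).1 q.2, fun i => (w i).2⟩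
        left_inv := fun u => rfl
        right_inv := fun w => rfl }
  rw [h3] at h2
  rw [h1]
  exact h2

/-- A gadget whose first edge is in `A` and whose last edge is in `B`. -/
def Cross {n : ℕ} (A B : Finset (Sym2 (Fin n))) (t : Fin 5 → Fin n) : Prop :=
  s(t 0, t 1) ∈ A ∧ s(t 3, t 4) ∈ B

instance {n : ℕ} (A B : Finset (Sym2 (Fin n))) : DecidablePred (Cross A B) := fun t => by
  unfold Cross; infer_instance

variable {n q : ℕ}

/-- `z` on the crossing gadgets, `m` on the others. -/
def mrg (A B : Finset (Sym2 (Fin n))) (p : Fin q → Fin 5 → Fin n) (z m : Fin q → Bool) :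
    Fin q → Bool :=
  fun i => if Cross A B (p i) then z i else m i

theorem sum_mrg (A B : Finset (Sym2 (Fin n))) (p : Fin q → Fin 5 → Fin n)
    (F : (Fin q → Bool) → ℝ) : ∑ m, ∑ z, F (mrg A B p z m) = 2 ^ q * ∑ z, F z := by
  have hinv : ∀ z m : Fin q → Bool, mrg A B p (mrg A B p z m) (mrg A B p m z) = z := by
    intro z m
    funext i
    unfold mrg
    split_ifs <;> rfl
  let σ : (Fin q → Bool) × (Fin q → Bool) ≃ (Fin q → Bool) × (Fin q → Bool) :=
    { toFun := fun w => (mrg A B p w.1 w.2, mrg A B p w.2 w.1)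
      invFun := fun w => (mrg A B p w.1 w.2, mrg A B p w.2 w.1)
      left_inv := fun w => Prod.ext (hinv _ _) (hinv _ _)
      right_inv := fun w => Prod.ext (hinv _ _) (hinv _ _) }
  have h1 : ∑ w : (Fin q → Bool) × (Fin q → Bool), F (mrg A B p w.1 w.2) =
      ∑ w : (Fin q → Bool) × (Fin q → Bool), F w.1 :=
    Fintype.sum_equiv σ _ _ fun w => rfl
  rw [Finset.sum_comm, ← Fintype.sum_prod_type (f := fun w : (Fin q → Bool) × (Fin q → Bool) =>
    F (mrg A B p w.1 w.2)), h1, Fintype.sum_prod_type, Finset.mul_sum]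
  refine Finset.sum_congr rfl fun z _ => ?_
  simp

/-- The ratio. -/
noncomputable def rho : ℝ := Real.sqrt 1081 / 33

theorem fixed_bound (p : Fin q → Fin 5 → Fin n)
    (hp : Function.Injective fun w : Fin q × Fin 5 => p w.1 w.2) (A B : Finset (Sym2 (Fin n)))
    (g h : (Sym2 (Fin n) → Bool) → ℝ) (hg : Dep g Bᶜ) (hh' : Dep h Aᶜ) {κ : ℝ} (hκ0 : 0 ≤ κ)
    (hκ : ∀ y, |g y * h y| ≤ κ * models n y) :
    |∑ z : Fin q → Bool, g (cfg p z z) * h (cfg p z z)| ≤
      κ * (2 ^ n / 32 ^ q * 33 ^ q) * ∏ i, (if Cross A B (p i) then rho else 1) := by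
  classical
  set K : ℝ := 2 ^ n / 32 ^ q with hK
  have hKpos : 0 < K := by positivity
  have s0 : 0 ≤ Real.sqrt 1081 := Real.sqrt_nonneg _
  have s1 : Real.sqrt 1081 ^ 2 = 1081 := Real.sq_sqrt (by norm_num)
  let c : Fin q → Bool → Bool → Bool → ℝ := fun i m b b' =>
    if Cross A B (p i) then (hh b b' : ℝ) else (hh m m : ℝ)
  let d : Fin q → Bool → ℝ := fun i m =>
    if Cross A B (p i) then Real.sqrt 1081 else 2 * (hh m m : ℝ)
  have hd0 : ∀ i m, 0 ≤ d i m := by
    intro i m
    simp only [d]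
    split_ifs
    · exact s0
    · positivity
  have hcd : ∀ i m, ∑ b, ∑ b', (c i m b b') ^ 2 = (d i m) ^ 2 := by
    intro i m
    simp only [c, d]
    split_ifs with hX
    · rw [s1]
      simp only [Fintype.sum_bool, hh]
      norm_num
    · simp only [Fintype.sum_bool]
      ring
  have hds : ∀ i, ∑ m, d i m = 2 * 33 * (if Cross A B (p i) then rho else 1) := by
    intro i
    simp only [d]
    split_ifs with hX
    · simp only [Fintype.sum_bool, rho]
      ring
    · simp only [Fintype.sum_bool, hh]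
      norm_num
  have key : ∀ m : Fin q → Bool,
      |∑ z, g (cfg p (mrg A B p z m) (mrg A B p z m)) *
        h (cfg p (mrg A B p z m) (mrg A B p z m))| ≤ κ * K * ∏ i, d i (m i) := by
    intro m
    have h1 := trace_sq_le 1 (fun _ z => g (cfg p (mrg A B p z m) (mrg A B p z m)))
      (fun _ z => h (cfg p (mrg A B p z m) (mrg A B p z m)))
    simp only [Fin.sum_univ_one, Nat.cast_one, one_mul] at h1
    have h2 : ∀ z z' : Fin q → Bool,
        (g (cfg p (mrg A B p z m) (mrg A B p z m)) *
          h (cfg p (mrg A B p z' m) (mrg A B p z' m))) ^ 2 ≤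
        (κ * K) ^ 2 * ∏ i, (c i (m i) (z i) (z' i)) ^ 2 := by
      intro z z'
      set w := mrg A B p z m with hw
      set w' := mrg A B p z' m with hw'
      have hww : ∀ i, ¬ Cross A B (p i) → w i = w' i := by
        intro i hi
        simp only [hw, hw', mrg, if_neg hi]
      have e1 : g (cfg p w w) = g (cfg p w w') := by
        refine hg _ _ fun e he => ?_
        rw [mem_compl] at he
        simp only [cfg]
        refine decide_eq_decide.mpr (exists_congr fun i => or_congr Iff.rfl (or_congr Iff.rfl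
          (or_congr Iff.rfl (and_congr_left fun hce => ?_))))
        by_cases hX : Cross A B (p i)
        · exact absurd (hce ▸ hX.2) he
        · rw [hww i hX]
      have e2 : h (cfg p w' w') = h (cfg p w w') := by
        refine hh' _ _ fun e he => ?_
        rw [mem_compl] at he
        simp only [cfg]
        refine decide_eq_decide.mpr (exists_congr fun i => or_congr
          (and_congr_left fun hce => ?_) Iff.rfl)
        by_cases hX : Cross A B (p i)
        · exact absurd (hce ▸ hX.1) he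
        · rw [hww i hX]
      have e4 : (models n (cfg p w w') : ℝ) = K * ∏ i, c i (m i) (z i) (z' i) := by
        have e5 := models_cfg p hp w w'
        have e7 : (32 : ℝ) ^ q * models n (cfg p w w') = 2 ^ n * ∏ i, (hh (w i) (w' i) : ℝ) := by
          exact_mod_cast e5
        have e8 : ∏ i, (hh (w i) (w' i) : ℝ) = ∏ i, c i (m i) (z i) (z' i) := by
          refine Finset.prod_congr rfl fun i _ => ?_
          simp only [c, hw, hw', mrg]
          by_cases hX : Cross A B (p i)
          · simp only [if_pos hX]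
          · simp only [if_neg hX]
        rw [← e8, hK]
        field_simp
        linarith
      rw [e1, e2, ← sq_abs]
      have e9 := hκ (cfg p w w')
      rw [e4] at e9
      have e10 : (κ * K) ^ 2 * ∏ i, (c i (m i) (z i) (z' i)) ^ 2 =
          (κ * (K * ∏ i, c i (m i) (z i) (z' i))) ^ 2 := by
        rw [Finset.prod_pow]
        ring
      rw [e10]
      exact pow_le_pow_left₀ (abs_nonneg _) e9 2
    have h3 : ∑ z : Fin q → Bool, ∑ z' : Fin q → Bool,
        (g (cfg p (mrg A B p z m) (mrg A B p z m)) *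
          h (cfg p (mrg A B p z' m) (mrg A B p z' m))) ^ 2 ≤
        (κ * K) ^ 2 * ∏ i, (d i (m i)) ^ 2 := by
      refine (Finset.sum_le_sum fun z _ => Finset.sum_le_sum fun z' _ => h2 z z').trans
        (le_of_eq ?_)
      simp only [← Finset.mul_sum]
      rw [sum_sum_prod_bool fun i b b' => (c i (m i) b b') ^ 2]
      simp only [hcd]
    have h4 : 0 ≤ κ * K * ∏ i, d i (m i) :=
      mul_nonneg (by positivity) (Finset.prod_nonneg fun i _ => hd0 i _)
    refine abs_le_of_sq_le_sq ?_ h4
    refine h1.trans (h3.trans (le_of_eq ?_))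
    rw [mul_pow (κ * K), Finset.prod_pow]
  have h5 := sum_mrg A B p fun z => g (cfg p z z) * h (cfg p z z)
  have h6 : |2 ^ q * ∑ z : Fin q → Bool, g (cfg p z z) * h (cfg p z z)| ≤
      κ * K * ∏ i, (2 * 33 * (if Cross A B (p i) then rho else 1)) := by
    rw [← h5]
    refine (Finset.abs_sum_le_sum_abs _ _).trans ((Finset.sum_le_sum fun m _ => key m).trans
      (le_of_eq ?_))
    rw [← Finset.mul_sum, sum_prod_bool]
    simp only [hds]
  rw [abs_mul, abs_of_pos (by positivity : (0 : ℝ) < 2 ^ q), Finset.prod_mul_distrib,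
    Finset.prod_const, card_univ, Fintype.card_fin, mul_pow] at h6
  have h7 : (0 : ℝ) < 2 ^ q := by positivity
  have h8 : κ * K * (2 ^ q * 33 ^ q * ∏ i, (if Cross A B (p i) then rho else 1)) =
      2 ^ q * (κ * (K * 33 ^ q) * ∏ i, (if Cross A B (p i) then rho else 1)) := by
    ring
  rw [h8] at h6
  exact le_of_mul_le_mul_left h6 h7

end Pool.Agent.RK
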