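import Pool.Agent.RK.Pack
import Pool.Agent.RK.Count5
import Pool.Agent.FL.Super

/-!
Many crossing gadgets, and the functional.
-/

namespace Pool.Agent.RK

open Finset

open Pool.Agent.FL (Dep pairs_univ_le card_le_pairs sum_prod_bool)

/-- Tuples with two equal entries are rare. -/
theorem card_eq_entries {n d : ℕ} (U : Finset (Fin n)) {i j : Fin (d + 1)} (hij : i ≠ j) :
    ((Fintype.piFinset fun _ : Fin (d + 1) => U).filter fun t => t i = t j).card ≤ U.card ^ d := by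
  have h1 : (Fintype.piFinset fun _ : Fin d => U).card = U.card ^ d := by
    rw [Fintype.card_piFinset_const]
  rw [← h1]
  refine card_le_card_of_injOn (fun t a => t (j.succAbove a)) ?_ ?_
  · intro t ht
    rw [Finset.mem_coe, mem_filter, Fintype.mem_piFinset] at ht
    rw [Finset.mem_coe, Fintype.mem_piFinset]
    exact fun a => ht.1 _
  · intro t ht t' ht' h
    rw [Finset.mem_coe, mem_filter] at ht ht'
    have h2 : ∀ a, a ≠ j → t a = t' a := by
      intro a ha
      obtain ⟨b, rfl⟩ := Fin.exists_succAbove_eq ha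
      exact congrFun h b
    funext a
    by_cases ha : a = j
    · subst ha
      rw [← ht.2, ← ht'.2]
      exact h2 i hij
    · exact h2 a ha

theorem cross_count {n : ℕ} (U : Finset (Fin n)) (A B : Finset (Sym2 (Fin n))) :
    ((U ×ˢ U).filter fun e : Fin n × Fin n => s(e.1, e.2) ∈ A).card * (U.card *
      ((U ×ˢ U).filter fun e : Fin n × Fin n => s(e.1, e.2) ∈ B).card) ≤
    ((tup 5 U).filter (Cross A B)).card + 20 * U.card ^ 4 := by
  classical
  set D : Finset (Fin 5 → Fin n) := (Fintype.piFinset fun _ : Fin 5 => U).filter fun t =>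
    s(t 0, t 1) ∈ A ∧ s(t 3, t 4) ∈ B with hD
  have h1 : ((U ×ˢ U).filter fun e : Fin n × Fin n => s(e.1, e.2) ∈ A).card * (U.card *
      ((U ×ˢ U).filter fun e : Fin n × Fin n => s(e.1, e.2) ∈ B).card) ≤ D.card := by
    rw [← card_product, ← card_product]
    refine card_le_card_of_injOn (fun w => ![w.1.1, w.1.2, w.2.1, w.2.2.1, w.2.2.2]) ?_ ?_
    · rintro ⟨⟨a, b⟩, x, c, e⟩ h
      simp only [coe_product, coe_filter, mem_product, Set.mem_prod, Finset.mem_coe,
        Set.mem_ofPred_eq] at h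
      rw [Finset.mem_coe, hD, mem_filter, Fintype.mem_piFinset]
      refine ⟨fun i => ?_, h.1.2, h.2.2.2⟩
      fin_cases i
      · exact h.1.1.1
      · exact h.1.1.2
      · exact h.2.1
      · exact h.2.2.1.1
      · exact h.2.2.1.2
    · rintro ⟨⟨a, b⟩, x, c, e⟩ - ⟨⟨a', b'⟩, x', c', e'⟩ - h
      have h0 := congrFun h 0
      have h1 := congrFun h 1
      have h2 := congrFun h 2
      have h3 := congrFun h 3
      have h4 := congrFun h 4
      simp only [Prod.mk.injEq]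
      exact ⟨⟨h0, h1⟩, h2, h3, h4⟩
  refine h1.trans ?_
  have h2 : D ⊆ ((tup 5 U).filter (Cross A B)) ∪
      ((univ : Finset (Fin 5 × Fin 5)).filter fun w => w.1 ≠ w.2).biUnion fun w =>
        (Fintype.piFinset fun _ : Fin 5 => U).filter fun t => t w.1 = t w.2 := by
    intro t ht
    rw [hD, mem_filter, Fintype.mem_piFinset] at ht
    rw [mem_union, mem_filter, mem_tup, mem_biUnion]
    by_cases hinj : Function.Injective t
    · exact Or.inl ⟨⟨hinj, ht.1⟩, ht.2⟩
    · right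
      rw [Function.Injective] at hinj
      push Not at hinj
      obtain ⟨a, b, hab, hne⟩ := hinj
      exact ⟨(a, b), by simpa using hne, by
        rw [mem_filter, Fintype.mem_piFinset]
        exact ⟨ht.1, hab⟩⟩
  refine (card_le_card h2).trans ((card_union_le _ _).trans (Nat.add_le_add_left ?_ _))
  refine card_biUnion_le.trans ?_
  have h3 : ∀ w ∈ ((univ : Finset (Fin 5 × Fin 5)).filter fun w => w.1 ≠ w.2),
      ((Fintype.piFinset fun _ : Fin 5 => U).filter fun t => t w.1 = t w.2).card ≤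
        U.card ^ 4 := by
    intro w hw
    rw [mem_filter] at hw
    exact card_eq_entries U hw.2
  refine (Finset.sum_le_sum h3).trans ?_
  rw [sum_const, smul_eq_mul]
  refine Nat.mul_le_mul_right _ ?_
  decide

theorem half_sq_le_card {n : ℕ} : (n : ℝ) ^ 2 / 2 ≤ Fintype.card (Sym2 (Fin n)) := by
  rw [Sym2.card, Fintype.card_fin]
  have h1 : n ^ 2 ≤ 2 * (n + 1).choose 2 := by
    rw [Nat.choose_two_right]
    simp only [Nat.add_sub_cancel]
    have h3 : 2 ∣ (n + 1) * n := (Nat.even_mul_pred_self (n + 1)).two_dvd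
    obtain ⟨c, hc⟩ := h3
    rw [hc]
    have : 2 * c / 2 = c := by omega
    rw [this]
    nlinarith
  have h2 : (n : ℝ) ^ 2 ≤ 2 * ((n + 1).choose 2 : ℕ) := by exact_mod_cast h1
  linarith

theorem cross_bound {n q : ℕ} {β : ℝ} (hβ0 : 0 < β) (hβ1 : β ≤ 1)
    (hn : 1280 ≤ β * n) (hq : 5 * (q : ℝ) ≤ β * n / 8) {A B : Finset (Sym2 (Fin n))}
    (hAB : β * ((Fintype.card (Sym2 (Fin n)) : ℝ) * Fintype.card (Sym2 (Fin n))) ≤
      (A.card : ℝ) * B.card) (U : Finset (Fin n)) (hU : n ≤ U.card + 5 * q) :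
    β / 64 * (tup 5 U).card ≤ ((tup 5 U).filter (Cross A B)).card := by
  have hn0 : (0 : ℝ) < n := by
    by_contra h
    have h1 : (n : ℝ) = 0 := le_antisymm (not_lt.mp h) (Nat.cast_nonneg n)
    rw [h1] at hn
    norm_num at hn
  have hUn : (U.card : ℝ) ≤ n := by
    have := card_le_univ U
    rw [Fintype.card_fin] at this
    exact_mod_cast this
  have hUl : (n : ℝ) / 2 ≤ U.card := by
    have h1 : (n : ℝ) ≤ U.card + 5 * q := by exact_mod_cast hU
    nlinarith
  have hUc : (Uᶜ.card : ℝ) ≤ β * n / 8 := by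
    have h1 : Uᶜ.card ≤ 5 * q := by
      rw [card_compl, Fintype.card_fin]
      omega
    have h2 : (Uᶜ.card : ℝ) ≤ 5 * q := by exact_mod_cast h1
    linarith
  have hN : (n : ℝ) ^ 2 / 2 ≤ Fintype.card (Sym2 (Fin n)) := half_sq_le_card
  have hN0 : (0 : ℝ) < Fintype.card (Sym2 (Fin n)) := by
    have : 0 < (n : ℝ) ^ 2 / 2 := by positivity
    linarith
  have hpair : ∀ D : Finset (Sym2 (Fin n)), β * Fintype.card (Sym2 (Fin n)) ≤ D.card →
      (D.card : ℝ) / 2 ≤
        (((U ×ˢ U).filter fun e : Fin n × Fin n => s(e.1, e.2) ∈ D).card : ℝ) := by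
    intro D hD
    have h1 := card_le_pairs D
    have h2 := pairs_univ_le U fun e : Fin n × Fin n => s(e.1, e.2) ∈ D
    have h3 : (D.card : ℝ) ≤
        ((U ×ˢ U).filter fun e : Fin n × Fin n => s(e.1, e.2) ∈ D).card + 2 * n * Uᶜ.card := by
      exact_mod_cast h1.trans h2
    have h4 : 2 * (n : ℝ) * Uᶜ.card ≤ 2 * n * (β * n / 8) :=
      mul_le_mul_of_nonneg_left hUc (by positivity)
    have h5 := mul_le_mul_of_nonneg_left hN hβ0.le
    nlinarith
  have hAN : (A.card : ℝ) ≤ Fintype.card (Sym2 (Fin n)) := by exact_mod_cast card_le_univ A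
  have hBN : (B.card : ℝ) ≤ Fintype.card (Sym2 (Fin n)) := by exact_mod_cast card_le_univ B
  have hA0 : (0 : ℝ) ≤ A.card := Nat.cast_nonneg _
  have hB0 : (0 : ℝ) ≤ B.card := Nat.cast_nonneg _
  have hA : β * Fintype.card (Sym2 (Fin n)) ≤ A.card := by
    refine le_of_mul_le_mul_right ?_ hN0
    calc β * Fintype.card (Sym2 (Fin n)) * Fintype.card (Sym2 (Fin n)) =
        β * ((Fintype.card (Sym2 (Fin n)) : ℝ) * Fintype.card (Sym2 (Fin n))) := by ring
      _ ≤ A.card * B.card := hAB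
      _ ≤ A.card * Fintype.card (Sym2 (Fin n)) := mul_le_mul_of_nonneg_left hBN hA0
  have hB : β * Fintype.card (Sym2 (Fin n)) ≤ B.card := by
    refine le_of_mul_le_mul_right ?_ hN0
    calc β * Fintype.card (Sym2 (Fin n)) * Fintype.card (Sym2 (Fin n)) =
        β * ((Fintype.card (Sym2 (Fin n)) : ℝ) * Fintype.card (Sym2 (Fin n))) := by ring
      _ ≤ B.card * A.card := by rw [mul_comm (B.card : ℝ)]; exact hAB
      _ ≤ B.card * Fintype.card (Sym2 (Fin n)) := mul_le_mul_of_nonneg_left hAN hB0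
  have hRA := hpair A hA
  have hRB := hpair B hB
  have hc := cross_count U A B
  set RA := ((U ×ˢ U).filter fun e : Fin n × Fin n => s(e.1, e.2) ∈ A).card
  set RB := ((U ×ˢ U).filter fun e : Fin n × Fin n => s(e.1, e.2) ∈ B).card
  have hc' : (RA : ℝ) * (U.card * RB) ≤
      ((tup 5 U).filter (Cross A B)).card + 20 * (U.card : ℝ) ^ 4 := by
    exact_mod_cast hc
  have h1 : (A.card / 2 : ℝ) * ((n / 2) * (B.card / 2)) ≤ (RA : ℝ) * (U.card * RB) :=
    mul_le_mul hRA (mul_le_mul hUl hRB (by positivity) (Nat.cast_nonneg _)) (by positivity)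
      (Nat.cast_nonneg _)
  have h0 : β * n ^ 5 / 32 ≤ (A.card / 2 : ℝ) * ((n / 2) * (B.card / 2)) := by
    have h2 : ((n : ℝ) ^ 2 / 2) * ((n : ℝ) ^ 2 / 2) ≤
        (Fintype.card (Sym2 (Fin n)) : ℝ) * Fintype.card (Sym2 (Fin n)) :=
      mul_le_mul hN hN (by positivity) (Nat.cast_nonneg _)
    have h3 := (mul_le_mul_of_nonneg_left h2 hβ0.le).trans hAB
    have h4 := mul_le_mul_of_nonneg_left h3 (show (0 : ℝ) ≤ n / 8 by positivity)
    calc β * n ^ 5 / 32 = n / 8 * (β * (((n : ℝ) ^ 2 / 2) * ((n : ℝ) ^ 2 / 2))) := by ring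
      _ ≤ _ := h4
      _ = _ := by ring
  have h2 : (U.card : ℝ) ^ 4 ≤ n ^ 4 := pow_le_pow_left₀ (Nat.cast_nonneg _) hUn 4
  have h9 : ((tup 5 U).card : ℝ) ≤ n ^ 5 := by
    have h10 : (tup 5 U).card ≤ U.card ^ 5 := by
      rw [card_tup]
      exact Nat.descFactorial_le_pow _ _
    have h11 : ((tup 5 U).card : ℝ) ≤ (U.card : ℝ) ^ 5 := by exact_mod_cast h10
    exact h11.trans (pow_le_pow_left₀ (Nat.cast_nonneg _) hUn 5)
  have h11 : β / 64 * ((tup 5 U).card : ℝ) ≤ β / 64 * n ^ 5 :=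
    mul_le_mul_of_nonneg_left h9 (by positivity)
  have h12 : 20 * (n : ℝ) ^ 4 ≤ β * n ^ 5 / 64 := by
    have : 1280 * (n : ℝ) ^ 4 ≤ β * n * n ^ 4 := mul_le_mul_of_nonneg_right hn (by positivity)
    nlinarith
  linarith

theorem rho_nonneg : 0 ≤ rho := by
  unfold rho
  positivity

theorem rho_le : rho ≤ 299 / 300 := by
  unfold rho
  have : Real.sqrt 1081 ≤ 32.89 := by
    rw [Real.sqrt_le_left (by norm_num)]
    norm_num
  linarith

/-- The functional. -/
noncomputable def lam (n q : ℕ) : ((Sym2 (Fin n) → Bool) → ℝ) →ₗ[ℝ] ℝ :=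
  ((packCount 5 q n : ℝ) * (2 ^ n / 32 ^ q * 33 ^ q))⁻¹ •
    ∑ p ∈ packs 5 q (univ : Finset (Fin n)), ∑ z : Fin q → Bool, LinearMap.proj (cfg p z z)

theorem lam_apply (n q : ℕ) (R : (Sym2 (Fin n) → Bool) → ℝ) : lam n q R =
    ((packCount 5 q n : ℝ) * (2 ^ n / 32 ^ q * 33 ^ q))⁻¹ *
      ∑ p ∈ packs 5 q (univ : Finset (Fin n)), ∑ z : Fin q → Bool, R (cfg p z z) := by
  simp only [lam, LinearMap.smul_apply, LinearMap.sum_apply, LinearMap.proj_apply, smul_eq_mul]

theorem lam_models {n q : ℕ} (hq : 5 * q ≤ n) : lam n q (fun y => (models n y : ℝ)) = 1 := by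
  have hpos := packs_pos (d := 5) q n hq
  have h1 : ∀ p ∈ packs 5 q (univ : Finset (Fin n)),
      ∑ z : Fin q → Bool, (models n (cfg p z z) : ℝ) = 2 ^ n / 32 ^ q * 33 ^ q := by
    intro p hp
    have hp' := (mem_packs.mp hp).1
    have h2 : ∀ z : Fin q → Bool, (models n (cfg p z z) : ℝ) =
        2 ^ n / 32 ^ q * ∏ i, (hh (z i) (z i) : ℝ) := by
      intro z
      have h3 := models_cfg p hp' z z
      have h4 : (32 : ℝ) ^ q * models n (cfg p z z) = 2 ^ n * ∏ i, (hh (z i) (z i) : ℝ) := by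
        exact_mod_cast h3
      field_simp
      linarith
    rw [Finset.sum_congr rfl fun z _ => h2 z, ← Finset.mul_sum,
      sum_prod_bool fun _ b => (hh b b : ℝ)]
    simp only [Fintype.sum_bool, hh, prod_const, card_univ, Fintype.card_fin]
    norm_num
  rw [lam_apply, Finset.sum_congr rfl h1, sum_const, nsmul_eq_mul, card_packs, card_univ,
    Fintype.card_fin]
  have h2 : (0 : ℝ) < packCount 5 q n := by exact_mod_cast hpos
  have h3 : (0 : ℝ) < packCount 5 q n * (2 ^ n / 32 ^ q * 33 ^ q) := by positivity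
  exact inv_mul_cancel₀ h3.ne'

theorem lam_nonneg {n q : ℕ} (R : (Sym2 (Fin n) → Bool) → ℝ) (hR : ∀ y, 0 ≤ R y) :
    0 ≤ lam n q R := by
  rw [lam_apply]
  refine mul_nonneg (by positivity) (Finset.sum_nonneg fun p _ => Finset.sum_nonneg fun z _ =>
    hR _)

theorem exists_functional {β : ℝ} (hβ0 : 0 < β) (hβ1 : β ≤ 1) {n : ℕ}
    (hn : 1280 ≤ β * n) : ∃ Λ : ((Sym2 (Fin n) → Bool) → ℝ) →ₗ[ℝ] ℝ,
      Λ (fun y => (models n y : ℝ)) = 1 ∧ (∀ R, (∀ y, 0 ≤ R y) → 0 ≤ Λ R) ∧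
      ∀ (A B : Finset (Sym2 (Fin n))) (g h : (Sym2 (Fin n) → Bool) → ℝ),
        β * ((Fintype.card (Sym2 (Fin n)) : ℝ) * Fintype.card (Sym2 (Fin n))) ≤
          (A.card : ℝ) * B.card →
        Dep g Bᶜ → Dep h Aᶜ → ∀ κ : ℝ, 0 ≤ κ → (∀ y, |g y * h y| ≤ κ * models n y) →
        |Λ (g * h)| ≤ κ * Real.exp (-(β ^ 2 * n / 1536000)) := by
  classical
  have hn0 : (0 : ℝ) < n := by
    by_contra h
    have h1 : (n : ℝ) = 0 := le_antisymm (not_lt.mp h) (Nat.cast_nonneg n)
    rw [h1] at hn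
    norm_num at hn
  set q := ⌊β * n / 40⌋₊ with hqdef
  have hq1 : (q : ℝ) ≤ β * n / 40 := Nat.floor_le (by positivity)
  have hq2 : β * n / 40 < q + 1 := Nat.lt_floor_add_one _
  have hq3 : 5 * (q : ℝ) ≤ β * n / 8 := by linarith
  have hq4 : 5 * q ≤ n := by
    have : (5 * q : ℝ) ≤ n := by nlinarith
    exact_mod_cast this
  have hq5 : β * n / 80 ≤ q := by
    linarith
  refine ⟨lam n q, lam_models hq4, lam_nonneg, ?_⟩
  intro A B g h hAB hg hh' κ hκ0 hκ
  rw [lam_apply]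
  have hpos : (0 : ℝ) < packCount 5 q n := by exact_mod_cast packs_pos (d := 5) q n hq4
  have hN : (0 : ℝ) < packCount 5 q n * (2 ^ n / 32 ^ q * 33 ^ q) := by positivity
  rw [abs_mul, abs_of_pos (inv_pos.mpr hN)]
  have h1 : |∑ p ∈ packs 5 q (univ : Finset (Fin n)), ∑ z : Fin q → Bool,
      (g * h) (cfg p z z)| ≤ κ * (2 ^ n / 32 ^ q * 33 ^ q) *
        ((1 - β / 64 * (1 - rho)) ^ q * packCount 5 q n) := by
    refine (Finset.abs_sum_le_sum_abs _ _).trans ?_
    refine (Finset.sum_le_sum fun p hp => fixed_bound p (mem_packs.mp hp).1 A B g h hg hh' hκ0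
      hκ).trans ?_
    rw [← Finset.mul_sum]
    refine mul_le_mul_of_nonneg_left ?_ (by positivity)
    have h2 := pack_bound (n := n) (d := 5) (Cross A B) (γ := β / 64) (ρ := rho) (by linarith)
      rho_nonneg (rho_le.trans (by norm_num)) q univ fun U' _ hc =>
        cross_bound hβ0 hβ1 hn hq3 hAB U' (by
          rw [card_univ, Fintype.card_fin] at hc
          exact hc)
    rwa [card_packs, card_univ, Fintype.card_fin] at h2
  refine (mul_le_mul_of_nonneg_left h1 (inv_pos.mpr hN).le).trans ?_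
  have h3 : (packCount 5 q n * (2 ^ n / 32 ^ q * 33 ^ q) : ℝ)⁻¹ *
      (κ * (2 ^ n / 32 ^ q * 33 ^ q) *
        ((1 - β / 64 * (1 - rho)) ^ q * packCount 5 q n)) =
      κ * (1 - β / 64 * (1 - rho)) ^ q := by
    field_simp
  rw [h3]
  refine mul_le_mul_of_nonneg_left ?_ hκ0
  have h4 : 0 ≤ 1 - β / 64 * (1 - rho) := by
    have := rho_nonneg
    nlinarith
  have h5 : 1 - β / 64 * (1 - rho) ≤ Real.exp (-(β / 19200)) := by
    have h6 := Real.add_one_le_exp (-(β / 19200))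
    have h7 := rho_le
    nlinarith
  calc (1 - β / 64 * (1 - rho)) ^ q ≤ Real.exp (-(β / 19200)) ^ q :=
        pow_le_pow_left₀ h4 h5 q
    _ = Real.exp (-(β / 19200) * q) := by
        rw [← Real.exp_nat_mul]
        ring_nf
    _ ≤ Real.exp (-(β ^ 2 * n / 1536000)) := by
        refine Real.exp_le_exp.mpr ?_
        have h8 : β / 19200 * (β * n / 80) ≤ β / 19200 * q :=
          mul_le_mul_of_nonneg_left hq5 (by positivity)
        nlinarith

end Pool.Agent.RK
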