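import Pool.Agent.FL.Bound

/-!
Sums of products of nonnegative functions of few inputs each, and the choice of two sets of inputs
that are never read together.
-/

set_option linter.unusedSectionVars false

namespace Pool.Agent.RK

open Finset

open Pool.Agent.FL (Dep)

variable {V : Type} [Fintype V] [DecidableEq V]

/-- A product of at most `K` nonnegative functions of at most `θ` inputs each, every input `v`
occurring at most `μ v` times. -/
def IsTerm (θ K : ℕ) (μ : V → ℕ) (T : List (((V → Bool) → ℝ) × Finset V)) : Prop :=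
  T.length ≤ K ∧ (∀ q ∈ T, (∀ x, 0 ≤ q.1 x) ∧ Dep q.1 q.2 ∧ q.2.card ≤ θ) ∧
    ∀ v, T.countP (fun q => decide (v ∈ q.2)) ≤ μ v

/-- The product. -/
def tprod (T : List (((V → Bool) → ℝ) × Finset V)) : (V → Bool) → ℝ := (T.map Prod.fst).prod

/-- A sum of at most `M` such products. -/
def Dec (θ M K : ℕ) (μ : V → ℕ) (P : (V → Bool) → ℝ) : Prop :=
  ∃ L : List (List (((V → Bool) → ℝ) × Finset V)), L.length ≤ M ∧ (∀ T ∈ L, IsTerm θ K μ T) ∧
    P = (L.map tprod).sum

theorem IsTerm.mono {θ K K' : ℕ} {μ μ' : V → ℕ} {T : List (((V → Bool) → ℝ) × Finset V)}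
    (h : IsTerm θ K μ T) (hK : K ≤ K') (hμ : ∀ v, μ v ≤ μ' v) : IsTerm θ K' μ' T :=
  ⟨h.1.trans hK, h.2.1, fun v => (h.2.2 v).trans (hμ v)⟩

theorem IsTerm.append {θ K K' : ℕ} {μ μ' : V → ℕ} {T T' : List (((V → Bool) → ℝ) × Finset V)}
    (h : IsTerm θ K μ T) (h' : IsTerm θ K' μ' T') :
    IsTerm θ (K + K') (fun v => μ v + μ' v) (T ++ T') := by
  refine ⟨?_, ?_, ?_⟩
  · rw [List.length_append]
    exact add_le_add h.1 h'.1
  · intro q hq
    rcases List.mem_append.mp hq with hq | hq
    · exact h.2.1 q hq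
    · exact h'.2.1 q hq
  · intro v
    rw [List.countP_append]
    exact add_le_add (h.2.2 v) (h'.2.2 v)

theorem tprod_append (T T' : List (((V → Bool) → ℝ) × Finset V)) :
    tprod (T ++ T') = tprod T * tprod T' := by
  unfold tprod
  rw [List.map_append, List.prod_append]

theorem tprod_nonneg {θ K : ℕ} {μ : V → ℕ} {T : List (((V → Bool) → ℝ) × Finset V)}
    (h : IsTerm θ K μ T) (x : V → Bool) : 0 ≤ tprod T x := by
  have h1 := h.2.1
  clear h
  induction T with
  | nil => simp [tprod]
  | cons q T ih =>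
    have e : tprod (q :: T) = q.1 * tprod T := by
      unfold tprod
      rw [List.map_cons, List.prod_cons]
    rw [e, Pi.mul_apply]
    exact mul_nonneg ((h1 q List.mem_cons_self).1 x)
      (ih fun q' hq' => h1 q' (List.mem_cons_of_mem _ hq'))

variable {θ M M' K K' : ℕ} {μ μ' : V → ℕ} {P P' : (V → Bool) → ℝ}

theorem Dec.mono (h : Dec θ M K μ P) (hM : M ≤ M') (hK : K ≤ K') (hμ : ∀ v, μ v ≤ μ' v) :
    Dec θ M' K' μ' P := by
  obtain ⟨L, h1, h2, h3⟩ := h
  exact ⟨L, h1.trans hM, fun T hT => (h2 T hT).mono hK hμ, h3⟩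

theorem Dec.zero (θ M K : ℕ) (μ : V → ℕ) : Dec θ M K μ 0 :=
  ⟨[], Nat.zero_le _, fun T hT => absurd hT List.not_mem_nil, by simp⟩

theorem Dec.add (h : Dec θ M K μ P) (h' : Dec θ M' K μ P') : Dec θ (M + M') K μ (P + P') := by
  obtain ⟨L, h1, h2, h3⟩ := h
  obtain ⟨L', h1', h2', h3'⟩ := h'
  refine ⟨L ++ L', ?_, ?_, ?_⟩
  · rw [List.length_append]
    exact add_le_add h1 h1'
  · intro T hT
    rcases List.mem_append.mp hT with hT | hT
    · exact h2 T hT
    · exact h2' T hT
  · rw [List.map_append, List.sum_append, ← h3, ← h3']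

theorem Dec.mul_term {T : List (((V → Bool) → ℝ) × Finset V)} (hT : IsTerm θ K μ T)
    (h : Dec θ M K' μ' P) : Dec θ M (K + K') (fun v => μ v + μ' v) (tprod T * P) := by
  obtain ⟨L, h1, h2, h3⟩ := h
  refine ⟨L.map fun T' => T ++ T', by rwa [List.length_map], ?_, ?_⟩
  · intro T₁ hT₁
    obtain ⟨T', hT', rfl⟩ := List.mem_map.mp hT₁
    exact hT.append (h2 T' hT')
  · rw [h3, List.map_map]
    have : (tprod ∘ fun T' => T ++ T') = fun T' => tprod T * tprod T' := by
      funext T'
      exact tprod_append T T'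
    rw [this, List.sum_map_mul_left]

theorem Dec.mul (h : Dec θ M K μ P) (h' : Dec θ M' K' μ' P') :
    Dec θ (M * M') (K + K') (fun v => μ v + μ' v) (P * P') := by
  obtain ⟨L, h1, h2, h3⟩ := h
  subst h3
  induction L generalizing M with
  | nil => simpa using Dec.zero θ (M * M') (K + K') (fun v => μ v + μ' v)
  | cons T L ih =>
    rw [List.map_cons, List.sum_cons, add_mul]
    rw [List.length_cons] at h1
    have h4 := ih (M := L.length) le_rfl fun T' hT' => h2 T' (List.mem_cons_of_mem _ hT')
    have h5 := Dec.mul_term (h2 T List.mem_cons_self) h'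
    refine (h5.add h4).mono ?_ le_rfl fun _ => le_rfl
    nlinarith

theorem Dec.sum {ι : Type} (s : Finset ι) (P : ι → (V → Bool) → ℝ)
    (h : ∀ i ∈ s, Dec θ M K μ (P i)) : Dec θ (s.card * M) K μ (∑ i ∈ s, P i) := by
  classical
  induction s using Finset.induction_on with
  | empty => simpa using Dec.zero θ 0 K μ
  | insert i s hi ih =>
    rw [sum_insert hi, card_insert_of_notMem hi]
    refine ((h i (mem_insert_self _ _)).add
      (ih fun j hj => h j (mem_insert_of_mem hj))).mono ?_ le_rfl fun _ => le_rfl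
    nlinarith

theorem Dec.single {Q : (V → Bool) → ℝ} {S : Finset V} (hQ : ∀ x, 0 ≤ Q x) (hS : Dep Q S)
    (hc : S.card ≤ θ) (hμ : ∀ v ∈ S, 1 ≤ μ v) : Dec θ 1 1 μ Q := by
  refine ⟨[[(Q, S)]], le_rfl, ?_, ?_⟩
  · intro T hT
    rw [List.mem_singleton] at hT
    subst hT
    refine ⟨le_rfl, ?_, ?_⟩
    · intro q hq
      rw [List.mem_singleton] at hq
      subst hq
      exact ⟨hQ, hS, hc⟩
    · intro v
      rw [List.countP_cons, List.countP_nil]
      by_cases hv : v ∈ S
      · simpa [hv] using hμ v hv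
      · simp [hv]
  · simp [tprod]

/-- Two sets of inputs that are not read together. -/
theorem exists_label {K k θ : ℕ} (S : Fin K → Finset V) (hS : ∀ i, (S i).card ≤ θ)
    (hk : ∀ v, (univ.filter fun i => v ∈ S i).card ≤ k) (hθ : 2 * k * θ ≤ Fintype.card V) :
    ∃ L : Fin K → Bool, Fintype.card V * Fintype.card V ≤
      2 * (4 ^ k * ((univ.filter fun v => ∀ i, v ∈ S i → L i = true).card *
        (univ.filter fun v => ∀ i, v ∈ S i → L i = false).card)) := by
  classical
  set N := Fintype.card V with hN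
  let A : (Fin K → Bool) → Finset V := fun L => univ.filter fun v => ∀ i, v ∈ S i → L i = true
  let B : (Fin K → Bool) → Finset V := fun L => univ.filter fun v => ∀ i, v ∈ S i → L i = false
  -- the pairs that occur together
  let R : Finset (V × V) := univ.filter fun w => ∃ i, w.1 ∈ S i ∧ w.2 ∈ S i
  have hR : 2 * R.card ≤ N * N := by
    have h1 : R ⊆ (univ : Finset (Fin K)).biUnion fun i => S i ×ˢ S i := by
      intro w hw
      simp only [R, mem_filter, mem_univ, true_and] at hw
      obtain ⟨i, hi⟩ := hw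
      rw [mem_biUnion]
      exact ⟨i, mem_univ _, mem_product.mpr hi⟩
    have h2 : R.card ≤ ∑ i, (S i).card * θ := by
      refine (card_le_card h1).trans (card_biUnion_le.trans (Finset.sum_le_sum fun i _ => ?_))
      rw [card_product]
      exact Nat.mul_le_mul_left _ (hS i)
    have h3 : ∑ i, (S i).card ≤ N * k := by
      have h4 : ∑ i, (S i).card = ∑ v, (univ.filter fun i => v ∈ S i).card := by
        simp only [card_eq_sum_ones, sum_filter]
        rw [Finset.sum_comm]
        refine Finset.sum_congr rfl fun i _ => ?_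
        rw [← Finset.sum_filter, Finset.filter_mem_eq_inter, univ_inter]
      rw [h4]
      refine (Finset.sum_le_sum fun v _ => hk v).trans (le_of_eq ?_)
      rw [sum_const, card_univ, smul_eq_mul]
    rw [← Finset.sum_mul] at h2
    calc 2 * R.card ≤ 2 * ((∑ i, (S i).card) * θ) := Nat.mul_le_mul_left _ h2
      _ ≤ 2 * ((N * k) * θ) := Nat.mul_le_mul_left _ (Nat.mul_le_mul_right _ h3)
      _ = N * (2 * k * θ) := by ring
      _ ≤ N * N := Nat.mul_le_mul_left _ hθ
  -- the number of labellings for a pair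
  have hcount : ∀ v w : V, (v, w) ∉ R → 2 ^ K ≤
      4 ^ k * (univ.filter fun L : Fin K → Bool => v ∈ A L ∧ w ∈ B L).card := by
    intro v w hvw
    have hvw' : ∀ i, v ∈ S i → w ∉ S i := by
      intro i hv hw
      exact hvw (by simp only [R, mem_filter, mem_univ, true_and]; exact ⟨i, hv, hw⟩)
    let t : Fin K → Finset Bool := fun i => if v ∈ S i then {true} else
      if w ∈ S i then {false} else univ
    have h1 : (univ.filter fun L : Fin K → Bool => v ∈ A L ∧ w ∈ B L) = Fintype.piFinset t := by
      ext L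
      simp only [A, B, mem_filter, mem_univ, true_and, Fintype.mem_piFinset, t]
      constructor
      · rintro ⟨h1, h2⟩ i
        split_ifs with hv hw
        · rw [mem_singleton]; exact h1 i hv
        · rw [mem_singleton]; exact h2 i hw
        · exact mem_univ _
      · intro h
        refine ⟨fun i hv => ?_, fun i hw => ?_⟩
        · have := h i
          rwa [if_pos hv, mem_singleton] at this
        · have := h i
          rwa [if_neg (fun hv => hvw' i hv hw), if_pos hw, mem_singleton] at this
    rw [h1, Fintype.card_piFinset]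
    have h2 : (∏ i, (if v ∈ S i then 2 else 1)) * ((∏ i, (if w ∈ S i then 2 else 1)) *
        ∏ i, (t i).card) = 2 ^ K := by
      rw [← Finset.prod_mul_distrib, ← Finset.prod_mul_distrib]
      rw [Finset.prod_congr rfl (g := fun _ => 2), Finset.prod_const, card_univ, Fintype.card_fin]
      intro i _
      simp only [t]
      by_cases hv : v ∈ S i
      · simp [hv, hvw' i hv]
      · by_cases hw : w ∈ S i
        · simp [hv, hw]
        · simp [hv, hw]
    have h3 : ∀ v, ∏ i, (if v ∈ S i then 2 else 1) ≤ 2 ^ k := by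
      intro v
      rw [Finset.prod_ite, Finset.prod_const, Finset.prod_const_one, mul_one]
      exact Nat.pow_le_pow_right (by norm_num) (hk v)
    rw [← h2]
    calc _ ≤ 2 ^ k * (2 ^ k * ∏ i, (t i).card) :=
          Nat.mul_le_mul (h3 v) (Nat.mul_le_mul_right _ (h3 w))
      _ = 4 ^ k * ∏ i, (t i).card := by
          rw [← mul_assoc, ← mul_pow]
          norm_num
  have hsum : ∑ L, (A L).card * (B L).card =
      ∑ w : V × V, (univ.filter fun L : Fin K → Bool => w.1 ∈ A L ∧ w.2 ∈ B L).card := by
    have h1 : ∀ L, (A L).card * (B L).card =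
        ∑ w : V × V, if w.1 ∈ A L ∧ w.2 ∈ B L then 1 else 0 := by
      intro L
      rw [← card_product, card_eq_sum_ones, ← Finset.sum_filter]
      refine Finset.sum_congr ?_ fun _ _ => rfl
      ext w
      rw [mem_product, mem_filter (p := fun w : V × V => w.1 ∈ A L ∧ w.2 ∈ B L)]
      exact ⟨fun h => ⟨mem_univ _, h⟩, fun h => h.2⟩
    simp only [h1]
    rw [Finset.sum_comm]
    refine Finset.sum_congr rfl fun w _ => ?_
    rw [card_eq_sum_ones, Finset.sum_filter]
  have htot : 2 ^ K * (N * N) ≤ 2 * (4 ^ k * ∑ L, (A L).card * (B L).card) := by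
    have h1 : 2 ^ K * Rᶜ.card ≤ 4 ^ k * ∑ L, (A L).card * (B L).card := by
      rw [hsum, Finset.mul_sum]
      have h2 : ∑ w ∈ Rᶜ, 2 ^ K ≤ ∑ w ∈ Rᶜ,
          4 ^ k * (univ.filter fun L : Fin K → Bool => w.1 ∈ A L ∧ w.2 ∈ B L).card :=
        Finset.sum_le_sum fun w hw => hcount w.1 w.2 (mem_compl.mp hw)
      rw [sum_const, smul_eq_mul, mul_comm] at h2
      exact h2.trans (Finset.sum_le_sum_of_subset (subset_univ _))
    have h2 : N * N ≤ 2 * Rᶜ.card := by
      have h3 : R.card + Rᶜ.card = N * N := by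
        rw [card_add_card_compl, Fintype.card_prod]
      omega
    calc 2 ^ K * (N * N) ≤ 2 ^ K * (2 * Rᶜ.card) := Nat.mul_le_mul_left _ h2
      _ = 2 * (2 ^ K * Rᶜ.card) := by ring
      _ ≤ _ := Nat.mul_le_mul_left _ h1
  by_contra hcon
  push Not at hcon
  have h1 : ∑ L : Fin K → Bool, 2 * (4 ^ k * ((A L).card * (B L).card)) <
      ∑ _L : Fin K → Bool, N * N :=
    Finset.sum_lt_sum_of_nonempty ⟨fun _ => true, mem_univ _⟩ fun L _ => hcon L
  rw [← Finset.mul_sum, ← Finset.mul_sum, sum_const, card_univ, Fintype.card_fun,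
    Fintype.card_bool, Fintype.card_fin, smul_eq_mul] at h1
  omega

/-- Splitting a term according to a labelling. -/
theorem IsTerm.split {θ K k : ℕ} {μ : V → ℕ} {T : List (((V → Bool) → ℝ) × Finset V)}
    (hT : IsTerm θ K μ T) (hμ : ∀ v, μ v ≤ k) (hθ : 2 * k * θ ≤ Fintype.card V) :
    ∃ (A B : Finset V) (g h : (V → Bool) → ℝ),
      Fintype.card V * Fintype.card V ≤ 2 * (4 ^ k * (A.card * B.card)) ∧
      Dep g Bᶜ ∧ Dep h Aᶜ ∧ tprod T = g * h := by
  classical
  obtain ⟨h1, h2, h3⟩ := hT
  obtain ⟨L, hL⟩ := exists_label (K := T.length) (k := k) (θ := θ) (fun i => (T.get i).2)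
    (fun i => (h2 _ (List.get_mem T i)).2.2) (fun v => by
      refine le_trans ?_ ((h3 v).trans (hμ v))
      rw [List.countP_eq_length_filter]
      have h4 : (univ.filter fun i : Fin T.length => v ∈ (T.get i).2).card =
          ((List.finRange T.length).filter fun i => decide (v ∈ (T.get i).2)).length := by
        rw [← List.toFinset_card_of_nodup ((List.nodup_finRange _).filter _)]
        congr 1
        ext i
        simp
      rw [h4]
      have h5 : T.filter (fun q => decide (v ∈ q.2)) =
          ((List.finRange T.length).filter fun i => decide (v ∈ (T.get i).2)).map T.get := by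
        conv_lhs => rw [← List.map_get_finRange T]
        rw [List.filter_map]
        rfl
      rw [h5, List.length_map]) hθ
  refine ⟨_, _, ∏ i ∈ univ.filter (fun i => L i = true), (T.get i).1,
    ∏ i ∈ univ.filter (fun i => ¬ L i = true), (T.get i).1, hL, ?_, ?_, ?_⟩
  · intro x y hxy
    simp only [Finset.prod_apply]
    refine Finset.prod_congr rfl fun i hi => ?_
    rw [mem_filter] at hi
    refine (h2 _ (List.get_mem T i)).2.1 x y fun v hv => hxy v ?_
    rw [mem_compl, mem_filter]
    rintro ⟨-, h4⟩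
    have := h4 i hv
    rw [hi.2] at this
    exact absurd this (by simp)
  · intro x y hxy
    simp only [Finset.prod_apply]
    refine Finset.prod_congr rfl fun i hi => ?_
    rw [mem_filter] at hi
    refine (h2 _ (List.get_mem T i)).2.1 x y fun v hv => hxy v ?_
    rw [mem_compl, mem_filter]
    rintro ⟨-, h4⟩
    exact hi.2 (h4 i hv)
  · rw [Finset.prod_filter_mul_prod_filter_not]
    unfold tprod
    conv_lhs => rw [← List.map_get_finRange T]
    rw [List.map_map, ← List.prod_toFinset _ (List.nodup_finRange _), List.toFinset_finRange]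
    rfl

end Pool.Agent.RK
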