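import Mathlib

/-!
# Read-k arithmetic circuits, and the counting function of monotone 2-CNFs

The definitions used in the statement of the lower bound.
-/

namespace Pool.Agent.RK

/-- The number of satisfying assignments `x : Fin n → Bool` of the monotone 2-CNF in the variables
`x₀, …, x_{n-1}` whose clauses are the `(xᵢ ∨ xⱼ)` with `y s(i, j) = true` (for `i = j` this is the
unit clause `xᵢ`). -/
def models (n : ℕ) (y : Sym2 (Fin n) → Bool) : ℕ :=
  Fintype.card {x : Fin n → Bool // ∀ i j, y s(i, j) = true → (x i = true ∨ x j = true)}

/-- A gate number `i` of an arithmetic circuit over the Boolean inputs `V`; its inputs are gates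
with smaller numbers.
* `leaf S f` computes the real function `f`, which is meant to depend on the inputs in `S` only;
* `add j k` and `mul j k` compute the sum and the product of their inputs. -/
inductive Gate (V : Type) (i : ℕ) : Type where
  | leaf (S : Finset V) (f : (V → Bool) → ℝ)
  | add (j k : Fin i)
  | mul (j k : Fin i)

/-- An arithmetic circuit (a directed acyclic graph of gates): the gates number `0, …, top`, the
last one being the output gate. -/
structure Circuit (V : Type) where
  top : ℕ
  gate : (i : ℕ) → Gate V i

namespace Circuit

variable {V : Type}

/-- The number of gates. -/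
def size (C : Circuit V) : ℕ := C.top + 1

/-- The value of gate `i` on the input `y`. -/
noncomputable def val (C : Circuit V) (y : V → Bool) (i : ℕ) : ℝ :=
  match C.gate i with
  | .leaf _ f => f y
  | .add j k => C.val y j + C.val y k
  | .mul j k => C.val y j * C.val y k
termination_by i
decreasing_by all_goals exact Fin.isLt _

/-- The value of gate `i` on the input `y` if the value of every leaf is replaced by its absolute
value. -/
noncomputable def aval (C : Circuit V) (y : V → Bool) (i : ℕ) : ℝ :=
  match C.gate i with
  | .leaf _ f => |f y|
  | .add j k => C.aval y j + C.aval y k
  | .mul j k => C.aval y j * C.aval y k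
termination_by i
decreasing_by all_goals exact Fin.isLt _

/-- The number of times that gate `i` reads the input `v`: for a sum gate the maximum, and for a
product gate the sum of these numbers for its two inputs. -/
def reads [DecidableEq V] (C : Circuit V) (i : ℕ) (v : V) : ℕ :=
  match C.gate i with
  | .leaf S _ => if v ∈ S then 1 else 0
  | .add j k => max (C.reads j v) (C.reads k v)
  | .mul j k => C.reads j v + C.reads k v
termination_by i
decreasing_by all_goals exact Fin.isLt _

/-- The circuit is (syntactically) read-`k`: its output reads every input at most `k` times, and
every leaf `leaf S f` is any real function of the inputs in `S`, where `S` has at most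
`1 / (2 k)` of all inputs. -/
structure IsRead [Fintype V] [DecidableEq V] (k : ℕ) (C : Circuit V) : Prop where
  leaf : ∀ i ≤ C.top, ∀ S f, C.gate i = .leaf S f →
    (∀ x y, (∀ v ∈ S, x v = y v) → f x = f y) ∧ 2 * k * S.card ≤ Fintype.card V
  reads : ∀ v, C.reads C.top v ≤ k

end Circuit

end Pool.Agent.RK
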