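import Pool.Agent.RK.Dec
import Pool.Agent.RK.Defs

/-!
Path sums in a read-k circuit.
-/

set_option linter.unusedSectionVars false

namespace Pool.Agent.RK

open Finset

open Pool.Agent.FL (Dep)

theorem Dep.mono' {V : Type} {f : (V → Bool) → ℝ} {A B : Finset V} (h : Dep f A) (hAB : A ⊆ B) :
    Dep f B := fun x y hxy => h x y fun v hv => hxy v (hAB hv)

theorem Dep.mul' {V : Type} {a b : (V → Bool) → ℝ} {A : Finset V} (ha : Dep a A) (hb : Dep b A) :
    Dep (a * b) A := by
  intro x y hxy
  simp only [Pi.mul_apply, ha x y hxy, hb x y hxy]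

theorem Dep.add' {V : Type} {a b : (V → Bool) → ℝ} {A : Finset V} (ha : Dep a A) (hb : Dep b A) :
    Dep (a + b) A := by
  intro x y hxy
  simp only [Pi.add_apply, ha x y hxy, hb x y hxy]

theorem Dep.zero' {V : Type} (A : Finset V) : Dep (0 : (V → Bool) → ℝ) A := fun _ _ _ => rfl

theorem Dep.one' {V : Type} (A : Finset V) : Dep (1 : (V → Bool) → ℝ) A := fun _ _ _ => rfl

namespace Circuit

variable {V : Type} [Fintype V] [DecidableEq V]

/-- Absolute values of the gates as functions. -/
noncomputable def fa (C : Circuit V) (i : ℕ) (x : V → Bool) : ℝ := C.aval x i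

/-- The sum over all paths from gate `u` down to gate `v` of the products of the side inputs. -/
noncomputable def hol (C : Circuit V) (v u : ℕ) : (V → Bool) → ℝ :=
  (if u = v then 1 else 0) +
  match C.gate u with
  | .leaf _ _ => 0
  | .add j k => C.hol v j + C.hol v k
  | .mul j k => C.hol v j * C.fa k + C.fa j * C.hol v k
termination_by u
decreasing_by all_goals exact Fin.isLt _

/-- The total number of reads. -/
def wt (C : Circuit V) (i : ℕ) : ℕ := ∑ a, C.reads i a

/-- The part of `G` that is created at gate `i`. -/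
noncomputable def src (C : Circuit V) (G : ℕ → (V → Bool) → ℝ) (i : ℕ) : (V → Bool) → ℝ :=
  match C.gate i with
  | .leaf _ _ => G i
  | .add j k => G i - (G j + G k)
  | .mul j k => G i - (G j * C.fa k + C.fa j * G k)

section Values

variable {C : Circuit V} {i : ℕ} (v : ℕ)

theorem fa_leaf {S : Finset V} {f : (V → Bool) → ℝ} (h : C.gate i = .leaf S f) :
    C.fa i = fun x => |f x| := by
  funext x
  unfold fa
  rw [aval, h]

theorem fa_add {j k : Fin i} (h : C.gate i = .add j k) : C.fa i = C.fa j + C.fa k := by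
  funext x
  unfold fa
  rw [aval, h]
  rfl

theorem fa_mul {j k : Fin i} (h : C.gate i = .mul j k) : C.fa i = C.fa j * C.fa k := by
  funext x
  unfold fa
  rw [aval, h]
  rfl

theorem reads_leaf {S : Finset V} {f : (V → Bool) → ℝ} (h : C.gate i = .leaf S f) (a : V) :
    C.reads i a = if a ∈ S then 1 else 0 := by
  rw [reads, h]

theorem reads_add {j k : Fin i} (h : C.gate i = .add j k) (a : V) :
    C.reads i a = max (C.reads j a) (C.reads k a) := by
  rw [reads, h]

theorem reads_mul {j k : Fin i} (h : C.gate i = .mul j k) (a : V) :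
    C.reads i a = C.reads j a + C.reads k a := by
  rw [reads, h]

theorem hol_leaf {S : Finset V} {f : (V → Bool) → ℝ} (h : C.gate i = .leaf S f) :
    C.hol v i = if i = v then 1 else 0 := by
  rw [hol, h]
  simp

theorem hol_add {j k : Fin i} (h : C.gate i = .add j k) :
    C.hol v i = (if i = v then 1 else 0) + (C.hol v j + C.hol v k) := by
  rw [hol, h]

theorem hol_mul {j k : Fin i} (h : C.gate i = .mul j k) :
    C.hol v i = (if i = v then 1 else 0) + (C.hol v j * C.fa k + C.fa j * C.hol v k) := by
  rw [hol, h]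

theorem src_leaf (G : ℕ → (V → Bool) → ℝ) {S : Finset V} {f : (V → Bool) → ℝ}
    (h : C.gate i = .leaf S f) : C.src G i = G i := by
  rw [src, h]

theorem src_add (G : ℕ → (V → Bool) → ℝ) {j k : Fin i} (h : C.gate i = .add j k) :
    C.src G i = G i - (G j + G k) := by
  rw [src, h]

theorem src_mul (G : ℕ → (V → Bool) → ℝ) {j k : Fin i} (h : C.gate i = .mul j k) :
    C.src G i = G i - (G j * C.fa k + C.fa j * G k) := by
  rw [src, h]

theorem wt_leaf {S : Finset V} {f : (V → Bool) → ℝ} (h : C.gate i = .leaf S f) :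
    C.wt i = S.card := by
  unfold wt
  rw [Finset.sum_congr rfl fun a _ => reads_leaf h a, ← Finset.sum_filter,
    Finset.filter_mem_eq_inter, univ_inter, card_eq_sum_ones]

theorem wt_mul {j k : Fin i} (h : C.gate i = .mul j k) : C.wt i = C.wt j + C.wt k := by
  unfold wt
  rw [Finset.sum_congr rfl fun a _ => reads_mul h a, Finset.sum_add_distrib]

theorem wt_le {u w : ℕ} (h : ∀ a, C.reads w a ≤ C.reads u a) : C.wt w ≤ C.wt u :=
  Finset.sum_le_sum fun a _ => h a

end Values

theorem fa_nonneg (C : Circuit V) (i : ℕ) (x : V → Bool) : 0 ≤ C.fa i x := by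
  induction i using Nat.strong_induction_on with
  | _ i ih =>
    rcases hg : C.gate i with ⟨S, f⟩ | ⟨j, k⟩ | ⟨j, k⟩
    · rw [fa_leaf hg]
      exact abs_nonneg _
    · rw [fa_add hg]
      exact add_nonneg (ih j j.isLt) (ih k k.isLt)
    · rw [fa_mul hg]
      exact mul_nonneg (ih j j.isLt) (ih k k.isLt)

theorem hol_nonneg (C : Circuit V) (v u : ℕ) (x : V → Bool) : 0 ≤ C.hol v u x := by
  induction u using Nat.strong_induction_on with
  | _ u ih =>
    have h0 : (0 : ℝ) ≤ (if u = v then (1 : (V → Bool) → ℝ) else 0) x := by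
      split_ifs
      · exact zero_le_one
      · exact le_rfl
    rcases hg : C.gate u with ⟨S, f⟩ | ⟨j, k⟩ | ⟨j, k⟩
    · rw [hol_leaf v hg]
      exact h0
    · rw [hol_add v hg]
      exact add_nonneg h0 (add_nonneg (ih j j.isLt) (ih k k.isLt))
    · rw [hol_mul v hg]
      exact add_nonneg h0 (add_nonneg (mul_nonneg (ih j j.isLt) (C.fa_nonneg _ _))
        (mul_nonneg (C.fa_nonneg _ _) (ih k k.isLt)))

theorem hol_ne_zero {C : Circuit V} {v u : ℕ} (h : C.hol v u ≠ 0) :
    v ≤ u ∧ ∀ a, C.reads v a ≤ C.reads u a := by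
  induction u using Nat.strong_induction_on with
  | _ u ih =>
    by_cases huv : u = v
    · subst huv
      exact ⟨le_rfl, fun a => le_rfl⟩
    rcases hg : C.gate u with ⟨S, f⟩ | ⟨j, k⟩ | ⟨j, k⟩
    · rw [hol_leaf v hg, if_neg huv] at h
      exact absurd rfl h
    · rw [hol_add v hg, if_neg huv, zero_add] at h
      by_cases hj : C.hol v j = 0
      · rw [hj, zero_add] at h
        obtain ⟨h1, h2⟩ := ih k k.isLt h
        refine ⟨h1.trans k.isLt.le, fun a => (h2 a).trans ?_⟩
        rw [reads_add hg]
        exact le_max_right _ _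
      · obtain ⟨h1, h2⟩ := ih j j.isLt hj
        refine ⟨h1.trans j.isLt.le, fun a => (h2 a).trans ?_⟩
        rw [reads_add hg]
        exact le_max_left _ _
    · rw [hol_mul v hg, if_neg huv, zero_add] at h
      by_cases hj : C.hol v j = 0
      · rw [hj, zero_mul, zero_add] at h
        obtain ⟨h1, h2⟩ := ih k k.isLt (right_ne_zero_of_mul h)
        refine ⟨h1.trans k.isLt.le, fun a => (h2 a).trans ?_⟩
        rw [reads_mul hg]
        exact Nat.le_add_left _ _
      · obtain ⟨h1, h2⟩ := ih j j.isLt hj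
        refine ⟨h1.trans j.isLt.le, fun a => (h2 a).trans ?_⟩
        rw [reads_mul hg]
        exact Nat.le_add_right _ _

theorem hol_self (C : Circuit V) (v : ℕ) : C.hol v v = 1 := by
  have h0 : ∀ j < v, C.hol v j = 0 := by
    intro j hj
    by_contra h
    have := (hol_ne_zero h).1
    omega
  rcases hg : C.gate v with ⟨S, f⟩ | ⟨j, k⟩ | ⟨j, k⟩
  · rw [hol_leaf v hg, if_pos rfl]
  · rw [hol_add v hg, if_pos rfl, h0 j j.isLt, h0 k k.isLt]
    simp
  · rw [hol_mul v hg, if_pos rfl, h0 j j.isLt, h0 k k.isLt]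
    simp

theorem path_sum (C : Circuit V) (G : ℕ → (V → Bool) → ℝ) (m u : ℕ) (hu : u < m) :
    G u = ∑ w ∈ range m, C.hol w u * C.src G w := by
  induction u using Nat.strong_induction_on with
  | _ u ih =>
    have h0 : ∑ w ∈ range m, (if u = w then (1 : (V → Bool) → ℝ) else 0) * C.src G w =
        C.src G u := by
      rw [Finset.sum_eq_single u]
      · rw [if_pos rfl, one_mul]
      · intro b _ hb
        rw [if_neg (Ne.symm hb), zero_mul]
      · intro h
        exact absurd (mem_range.mpr hu) h
    rcases hg : C.gate u with ⟨S, f⟩ | ⟨j, k⟩ | ⟨j, k⟩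
    · rw [Finset.sum_congr rfl fun w _ => by rw [hol_leaf w hg], h0, src_leaf G hg]
    · have hj := ih j j.isLt (j.isLt.trans hu)
      have hk := ih k k.isLt (k.isLt.trans hu)
      rw [Finset.sum_congr rfl fun w _ => by
        rw [hol_add w hg, add_mul, add_mul], Finset.sum_add_distrib, Finset.sum_add_distrib,
        h0, ← hj, ← hk, src_add G hg]
      ring
    · have hj := ih j j.isLt (j.isLt.trans hu)
      have hk := ih k k.isLt (k.isLt.trans hu)
      have e1 : ∑ w ∈ range m, C.hol w j * C.fa k * C.src G w = G j * C.fa k := by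
        conv_rhs => rw [hj]
        rw [Finset.sum_mul]
        exact Finset.sum_congr rfl fun w _ => by ring
      have e2 : ∑ w ∈ range m, C.fa j * C.hol w k * C.src G w = C.fa j * G k := by
        conv_rhs => rw [hk]
        rw [Finset.mul_sum]
        exact Finset.sum_congr rfl fun w _ => by ring
      rw [Finset.sum_congr rfl fun w _ => by
        rw [hol_mul w hg, add_mul, add_mul], Finset.sum_add_distrib, Finset.sum_add_distrib,
        h0, e1, e2, src_mul G hg]
      ring

theorem src_eq_zero {C : Circuit V} {G : ℕ → (V → Bool) → ℝ} {w : ℕ}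
    (h : ∀ j, (∀ a, C.reads j a ≤ C.reads w a) → G j = 0) : C.src G w = 0 := by
  have hw := h w fun a => le_rfl
  rcases hg : C.gate w with ⟨S, f⟩ | ⟨j, k⟩ | ⟨j, k⟩
  · rw [src_leaf G hg, hw]
  · have hj := h j fun a => by rw [reads_add hg]; exact le_max_left _ _
    have hk := h k fun a => by rw [reads_add hg]; exact le_max_right _ _
    rw [src_add G hg, hw, hj, hk]
    simp
  · have hj := h j fun a => by rw [reads_mul hg]; exact Nat.le_add_right _ _
    have hk := h k fun a => by rw [reads_mul hg]; exact Nat.le_add_left _ _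
    rw [src_mul G hg, hw, hj, hk]
    simp

/-- The leaves are as they should be. -/
def Good (C : Circuit V) (θ : ℕ) : Prop := ∀ i ≤ C.top, ∀ S f, C.gate i = .leaf S f →
  Dep f S ∧ S.card ≤ θ

theorem fa_dep {C : Circuit V} {θ : ℕ} (hC : C.Good θ) : ∀ i ≤ C.top,
    Dep (C.fa i) (univ.filter fun a => 0 < C.reads i a) := by
  intro i
  induction i using Nat.strong_induction_on with
  | _ i ih =>
    intro hi
    rcases hg : C.gate i with ⟨S, f⟩ | ⟨j, k⟩ | ⟨j, k⟩
    · rw [fa_leaf hg]
      intro x y hxy
      show |f x| = |f y|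
      rw [(hC i hi S f hg).1 x y fun v hv => hxy v ?_]
      rw [mem_filter, reads_leaf hg, if_pos hv]
      exact ⟨mem_univ _, by norm_num⟩
    · rw [fa_add hg]
      refine Dep.add' (Dep.mono' (ih j j.isLt (by have := j.isLt; omega)) ?_)
        (Dep.mono' (ih k k.isLt (by have := k.isLt; omega)) ?_)
      · intro a ha
        rw [mem_filter] at ha ⊢
        rw [reads_add hg]
        exact ⟨mem_univ _, lt_of_lt_of_le ha.2 (le_max_left _ _)⟩
      · intro a ha
        rw [mem_filter] at ha ⊢
        rw [reads_add hg]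
        exact ⟨mem_univ _, lt_of_lt_of_le ha.2 (le_max_right _ _)⟩
    · rw [fa_mul hg]
      refine Dep.mul' (Dep.mono' (ih j j.isLt (by have := j.isLt; omega)) ?_)
        (Dep.mono' (ih k k.isLt (by have := k.isLt; omega)) ?_)
      · intro a ha
        rw [mem_filter] at ha ⊢
        rw [reads_mul hg]
        exact ⟨mem_univ _, lt_of_lt_of_le ha.2 (Nat.le_add_right _ _)⟩
      · intro a ha
        rw [mem_filter] at ha ⊢
        rw [reads_mul hg]
        exact ⟨mem_univ _, lt_of_lt_of_le ha.2 (Nat.le_add_left _ _)⟩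

theorem hol_dep {C : Circuit V} {θ : ℕ} (hC : C.Good θ) (v : ℕ) : ∀ i ≤ C.top,
    Dep (C.hol v i) (univ.filter fun a => C.reads v a < C.reads i a) := by
  intro i
  induction i using Nat.strong_induction_on with
  | _ i ih =>
    intro hi
    by_cases hiv : i = v
    · subst hiv
      rw [hol_self]
      exact Dep.one' _
    rcases hg : C.gate i with ⟨S, f⟩ | ⟨j, k⟩ | ⟨j, k⟩
    · rw [hol_leaf v hg, if_neg hiv]
      exact Dep.zero' _
    · rw [hol_add v hg, if_neg hiv, zero_add]
      refine Dep.add' (Dep.mono' (ih j j.isLt (by have := j.isLt; omega)) ?_)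
        (Dep.mono' (ih k k.isLt (by have := k.isLt; omega)) ?_)
      · intro a ha
        rw [mem_filter] at ha ⊢
        rw [reads_add hg]
        exact ⟨mem_univ _, lt_of_lt_of_le ha.2 (le_max_left _ _)⟩
      · intro a ha
        rw [mem_filter] at ha ⊢
        rw [reads_add hg]
        exact ⟨mem_univ _, lt_of_lt_of_le ha.2 (le_max_right _ _)⟩
    · rw [hol_mul v hg, if_neg hiv, zero_add]
      have hji := j.isLt
      have hki := k.isLt
      refine Dep.add' ?_ ?_
      · by_cases h0 : C.hol v j = 0
        · rw [h0, zero_mul]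
          exact Dep.zero' _
        · have h1 := (hol_ne_zero h0).2
          refine Dep.mul' (Dep.mono' (ih j hji (by omega)) ?_)
            (Dep.mono' (fa_dep hC k (by omega)) ?_)
          · intro a ha
            rw [mem_filter] at ha ⊢
            rw [reads_mul hg]
            exact ⟨mem_univ _, lt_of_lt_of_le ha.2 (Nat.le_add_right _ _)⟩
          · intro a ha
            rw [mem_filter] at ha ⊢
            rw [reads_mul hg]
            have h2 := h1 a
            have h3 := ha.2
            exact ⟨mem_univ _, by omega⟩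
      · by_cases h0 : C.hol v k = 0
        · rw [h0, mul_zero]
          exact Dep.zero' _
        · have h1 := (hol_ne_zero h0).2
          refine Dep.mul' (Dep.mono' (fa_dep hC j (by omega)) ?_)
            (Dep.mono' (ih k hki (by omega)) ?_)
          · intro a ha
            rw [mem_filter] at ha ⊢
            rw [reads_mul hg]
            have h2 := h1 a
            have h3 := ha.2
            exact ⟨mem_univ _, by omega⟩
          · intro a ha
            rw [mem_filter] at ha ⊢
            rw [reads_mul hg]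
            exact ⟨mem_univ _, lt_of_lt_of_le ha.2 (Nat.le_add_left _ _)⟩

section Step

variable {C : Circuit V} {θ m M K : ℕ}

theorem base_A (hC : C.Good θ) {u : ℕ} (hu : u ≤ C.top) (hwt : C.wt u ≤ θ) :
    Dec θ 1 1 (C.reads u) (C.fa u) := by
  refine Dec.single (C.fa_nonneg u) (fa_dep hC u hu) (le_trans ?_ hwt) fun v hv => ?_
  · rw [card_eq_sum_ones]
    unfold wt
    refine (Finset.sum_le_sum fun a ha => ?_).trans
      (Finset.sum_le_sum_of_subset (filter_subset _ _))
    rw [mem_filter] at ha
    exact ha.2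
  · rw [mem_filter] at hv
    exact hv.2

theorem base_B (hC : C.Good θ) {v u : ℕ} (hu : u ≤ C.top) (hwt : C.wt u ≤ C.wt v + θ) :
    Dec θ 1 1 (fun a => C.reads u a - C.reads v a) (C.hol v u) := by
  by_cases h0 : C.hol v u = 0
  · rw [h0]
    exact Dec.zero _ _ _ _
  have h1 := (hol_ne_zero h0).2
  refine Dec.single (C.hol_nonneg v u) (hol_dep hC v u hu) ?_ fun a ha => ?_
  · have h2 : ∑ a, (C.reads u a - C.reads v a) + C.wt v = C.wt u := by
      unfold wt
      rw [← Finset.sum_add_distrib]
      exact Finset.sum_congr rfl fun a _ => Nat.sub_add_cancel (h1 a)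
    have h3 : (univ.filter fun a => C.reads v a < C.reads u a).card ≤
        ∑ a, (C.reads u a - C.reads v a) := by
      rw [card_eq_sum_ones]
      refine (Finset.sum_le_sum fun a ha => ?_).trans
        (Finset.sum_le_sum_of_subset (filter_subset _ _))
      rw [mem_filter] at ha
      have := ha.2
      omega
    omega
  · rw [mem_filter] at ha
    have := ha.2
    show 1 ≤ C.reads u a - C.reads v a
    omega

theorem step_A (hC : C.Good θ) (hθ : θ ≤ m) (hM : 1 ≤ M)
    (hA : ∀ u ≤ C.top, C.wt u ≤ m → Dec θ M K (C.reads u) (C.fa u))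
    (hB : ∀ v u, u ≤ C.top → C.wt u ≤ C.wt v + m →
      Dec θ M K (fun a => C.reads u a - C.reads v a) (C.hol v u)) {u : ℕ} (hu : u ≤ C.top)
    (hwt : C.wt u ≤ 2 * m) : Dec θ ((C.top + 1) * (2 * M ^ 3)) (3 * K) (C.reads u) (C.fa u) := by
  classical
  have hM2 : M ≤ M ^ 2 := Nat.le_self_pow (by norm_num) M
  have hM3 : M ≤ M ^ 3 := Nat.le_self_pow (by norm_num) M
  by_cases hl : C.wt u ≤ m
  · refine (hA u hu hl).mono ?_ (by omega) fun _ => le_rfl
    nlinarith
  set G : ℕ → (V → Bool) → ℝ := fun w => if m < C.wt w then C.fa w else 0 with hG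
  have hGu : C.fa u = G u := by
    rw [hG]
    simp only
    rw [if_pos (not_le.mp hl)]
  have hGl : ∀ j, C.wt j ≤ m → G j = 0 := by
    intro j hj
    rw [hG]
    simp only
    rw [if_neg (not_lt.mpr hj)]
  have hGh : ∀ j, m < C.wt j → G j = C.fa j := by
    intro j hj
    rw [hG]
    simp only
    rw [if_pos hj]
  have hsub : ∀ j ≤ C.top, Dec θ M K (C.reads j) (C.fa j - G j) := by
    intro j hj
    by_cases hjm : C.wt j ≤ m
    · rw [hGl j hjm, sub_zero]
      exact hA j hj hjm
    · rw [hGh j (not_le.mp hjm), sub_self]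
      exact Dec.zero _ _ _ _
  rw [hGu, C.path_sum G (u + 1) u (Nat.lt_succ_self u)]
  refine (Dec.sum (M := 2 * M ^ 3) (K := 3 * K) (range (u + 1)) _ fun w hw => ?_).mono ?_ le_rfl
    fun _ => le_rfl
  swap
  · rw [card_range]
    exact Nat.mul_le_mul_right _ (by omega)
  rw [mem_range] at hw
  by_cases h0 : C.hol w u = 0
  · rw [h0, zero_mul]
    exact Dec.zero _ _ _ _
  obtain ⟨-, hr⟩ := hol_ne_zero h0
  have hwu := wt_le hr
  by_cases hwm : C.wt w ≤ m
  · rw [src_eq_zero (G := G) (w := w) fun j hj => hGl j ((wt_le hj).trans hwm), mul_zero]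
    exact Dec.zero _ _ _ _
  push Not at hwm
  have key : Dec θ (2 * M ^ 2) (2 * K) (C.reads w) (C.src G w) := by
    rcases hg : C.gate w with ⟨S, f⟩ | ⟨j, k⟩ | ⟨j, k⟩
    · exfalso
      have h1 := wt_leaf hg
      have h2 := (hC w (by omega) S f hg).2
      omega
    · have hji := j.isLt
      have hki := k.isLt
      have e : C.src G w = (C.fa j - G j) + (C.fa k - G k) := by
        rw [src_add G hg, hGh w hwm, fa_add hg]
        ring
      rw [e]
      refine Dec.mono (((hsub j (by omega)).mono le_rfl le_rfl fun a => ?_).add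
        ((hsub k (by omega)).mono le_rfl le_rfl fun a => ?_)) (by omega) (by omega)
          (μ := C.reads w) fun _ => le_rfl
      · rw [reads_add hg]; exact le_max_left _ _
      · rw [reads_add hg]; exact le_max_right _ _
    · have hji := j.isLt
      have hki := k.isLt
      have hw2 := wt_mul hg
      by_cases hj : C.wt j ≤ m
      · by_cases hk : C.wt k ≤ m
        · have e : C.src G w = C.fa j * C.fa k := by
            rw [src_mul G hg, hGh w hwm, fa_mul hg, hGl j hj, hGl k hk]
            ring
          rw [e]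
          refine ((hA j (by omega) hj).mul (hA k (by omega) hk)).mono ?_ (by omega) fun a => ?_
          · nlinarith
          · rw [reads_mul hg]
        · have e : C.src G w = 0 := by
            rw [src_mul G hg, hGh w hwm, fa_mul hg, hGl j hj, hGh k (not_le.mp hk)]
            ring
          rw [e]
          exact Dec.zero _ _ _ _
      · have e : C.src G w = 0 := by
          rw [src_mul G hg, hGh w hwm, fa_mul hg, hGl k (by omega), hGh j (not_le.mp hj)]
          ring
        rw [e]
        exact Dec.zero _ _ _ _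
  refine ((hB w u hu (by omega)).mul key).mono ?_ (by omega) fun a => ?_
  · exact le_of_eq (by ring)
  · have := hr a
    omega

theorem step_B (hC : C.Good θ) (hθ : θ ≤ m) (hM : 1 ≤ M)
    (hA : ∀ u ≤ C.top, C.wt u ≤ 2 * m →
      Dec θ ((C.top + 1) * (2 * M ^ 3)) (3 * K) (C.reads u) (C.fa u))
    (hB : ∀ v u, u ≤ C.top → C.wt u ≤ C.wt v + m →
      Dec θ M K (fun a => C.reads u a - C.reads v a) (C.hol v u)) {v u : ℕ} (hu : u ≤ C.top)
    (hwt : C.wt u ≤ C.wt v + 2 * m) :
    Dec θ (4 * (C.top + 1) ^ 2 * M ^ 5) (5 * K) (fun a => C.reads u a - C.reads v a)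
      (C.hol v u) := by
  classical
  have hM5 : M ≤ M ^ 5 := Nat.le_self_pow (by norm_num) M
  have hM4 : M ≤ M ^ 4 := Nat.le_self_pow (by norm_num) M
  by_cases hl : C.wt u ≤ C.wt v + m
  · refine (hB v u hu hl).mono ?_ (by omega) fun _ => le_rfl
    nlinarith [sq_nonneg C.top]
  set G : ℕ → (V → Bool) → ℝ := fun w => if C.wt v + m < C.wt w then C.hol v w else 0 with hG
  have hGu : C.hol v u = G u := by
    rw [hG]
    simp only
    rw [if_pos (not_le.mp hl)]
  have hGl : ∀ j, C.wt j ≤ C.wt v + m → G j = 0 := by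
    intro j hj
    rw [hG]
    simp only
    rw [if_neg (not_lt.mpr hj)]
  have hGh : ∀ j, C.wt v + m < C.wt j → G j = C.hol v j := by
    intro j hj
    rw [hG]
    simp only
    rw [if_pos hj]
  have hG0 : ∀ j, C.hol v j = 0 → G j = 0 := by
    intro j hj
    rw [hG]
    simp only
    rw [hj, ite_self]
  have hsub : ∀ j ≤ C.top,
      Dec θ M K (fun a => C.reads j a - C.reads v a) (C.hol v j - G j) := by
    intro j hj
    by_cases hjm : C.wt j ≤ C.wt v + m
    · rw [hGl j hjm, sub_zero]
      exact hB v j hj hjm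
    · rw [hGh j (not_le.mp hjm), sub_self]
      exact Dec.zero _ _ _ _
  rw [hGu, C.path_sum G (u + 1) u (Nat.lt_succ_self u)]
  refine (Dec.sum (M := 4 * (C.top + 1) * M ^ 5) (K := 5 * K) (range (u + 1)) _
    fun w hw => ?_).mono ?_ le_rfl fun _ => le_rfl
  swap
  · rw [card_range]
    calc (u + 1) * (4 * (C.top + 1) * M ^ 5) ≤ (C.top + 1) * (4 * (C.top + 1) * M ^ 5) :=
          Nat.mul_le_mul_right _ (by omega)
      _ = 4 * (C.top + 1) ^ 2 * M ^ 5 := by ring
  rw [mem_range] at hw
  by_cases h0 : C.hol w u = 0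
  · rw [h0, zero_mul]
    exact Dec.zero _ _ _ _
  obtain ⟨-, hr⟩ := hol_ne_zero h0
  have hwu := wt_le hr
  by_cases hwm : C.wt w ≤ C.wt v + m
  · rw [src_eq_zero (G := G) (w := w) fun j hj => hGl j ((wt_le hj).trans hwm), mul_zero]
    exact Dec.zero _ _ _ _
  push Not at hwm
  by_cases hvw : ∀ a, C.reads v a ≤ C.reads w a
  swap
  · rw [src_eq_zero (G := G) (w := w) fun j hj => hG0 j ?_, mul_zero]
    · exact Dec.zero _ _ _ _
    · by_contra hne
      exact hvw fun a => ((hol_ne_zero hne).2 a).trans (hj a)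
  have hne : w ≠ v := by
    rintro rfl
    omega
  have key : Dec θ (4 * (C.top + 1) * M ^ 4) (4 * K) (fun a => C.reads w a - C.reads v a)
      (C.src G w) := by
    rcases hg : C.gate w with ⟨S, f⟩ | ⟨j, k⟩ | ⟨j, k⟩
    · exfalso
      have h1 := wt_leaf hg
      have h2 := (hC w (by omega) S f hg).2
      omega
    · have hji := j.isLt
      have hki := k.isLt
      have e : C.src G w = (C.hol v j - G j) + (C.hol v k - G k) := by
        rw [src_add G hg, hGh w hwm, hol_add v hg, if_neg hne]
        ring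
      rw [e]
      refine Dec.mono (((hsub j (by omega)).mono le_rfl le_rfl fun a => ?_).add
        ((hsub k (by omega)).mono le_rfl le_rfl fun a => ?_)) ?_ (by omega)
          (μ := fun a => C.reads w a - C.reads v a) fun _ => le_rfl
      · rw [reads_add hg]
        exact Nat.sub_le_sub_right (le_max_left _ _) _
      · rw [reads_add hg]
        exact Nat.sub_le_sub_right (le_max_right _ _) _
      · nlinarith
    · have hji := j.isLt
      have hki := k.isLt
      have hw2 := wt_mul hg
      have e : C.src G w = (C.hol v j - G j) * C.fa k + C.fa j * (C.hol v k - G k) := by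
        rw [src_mul G hg, hGh w hwm, hol_mul v hg, if_neg hne]
        ring
      rw [e]
      have d1 : Dec θ (2 * (C.top + 1) * M ^ 4) (4 * K) (fun a => C.reads w a - C.reads v a)
          ((C.hol v j - G j) * C.fa k) := by
        by_cases hj0 : C.hol v j = 0
        · rw [hG0 j hj0, hj0, sub_zero, zero_mul]
          exact Dec.zero _ _ _ _
        · have h1 := (hol_ne_zero hj0).2
          have h2 := wt_le h1
          refine ((hsub j (by omega)).mul (hA k (by omega) (by omega))).mono ?_ (by omega)
            fun a => ?_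
          · exact le_of_eq (by ring)
          · rw [reads_mul hg]
            have := h1 a
            omega
      have d2 : Dec θ (2 * (C.top + 1) * M ^ 4) (4 * K) (fun a => C.reads w a - C.reads v a)
          (C.fa j * (C.hol v k - G k)) := by
        by_cases hk0 : C.hol v k = 0
        · rw [hG0 k hk0, hk0, sub_zero, mul_zero]
          exact Dec.zero _ _ _ _
        · have h1 := (hol_ne_zero hk0).2
          have h2 := wt_le h1
          refine ((hA j (by omega) (by omega)).mul (hsub k (by omega))).mono ?_ (by omega)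
            fun a => ?_
          · exact le_of_eq (by ring)
          · rw [reads_mul hg]
            have := h1 a
            omega
      exact (d1.add d2).mono (le_of_eq (by ring)) le_rfl fun _ => le_rfl
  refine ((hB w u hu (by omega)).mul key).mono ?_ (by omega) fun a => ?_
  · exact le_of_eq (by ring)
  · have h1 := hr a
    have h2 := hvw a
    show C.reads u a - C.reads w a + (C.reads w a - C.reads v a) ≤ C.reads u a - C.reads v a
    omega

/-- The number of terms. -/
def terms (s : ℕ) : ℕ → ℕ
  | 0 => 1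
  | l + 1 => 4 * s ^ 2 * terms s l ^ 5

theorem terms_pos {s : ℕ} (hs : 1 ≤ s) (l : ℕ) : 1 ≤ terms s l := by
  induction l with
  | zero => exact le_rfl
  | succ l ih =>
    unfold terms
    exact Nat.mul_pos (Nat.mul_pos (by norm_num) (Nat.pow_pos hs)) (Nat.pow_pos ih)

theorem terms_le {s : ℕ} (hs : 1 ≤ s) (l : ℕ) : 2 * s * terms s l ≤ (2 * s) ^ 5 ^ l := by
  induction l with
  | zero => simp [terms]
  | succ l ih =>
    unfold terms
    calc 2 * s * (4 * s ^ 2 * terms s l ^ 5) = 8 * s ^ 3 * terms s l ^ 5 := by ring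
      _ ≤ 32 * s ^ 5 * terms s l ^ 5 := by
          refine Nat.mul_le_mul_right _ (Nat.mul_le_mul (by norm_num) ?_)
          exact Nat.pow_le_pow_right hs (by norm_num)
      _ = (2 * s * terms s l) ^ 5 := by ring
      _ ≤ ((2 * s) ^ 5 ^ l) ^ 5 := Nat.pow_le_pow_left ih 5
      _ = (2 * s) ^ 5 ^ (l + 1) := by rw [← pow_mul, pow_succ]

theorem levels (hC : C.Good θ) (l : ℕ) :
    (∀ u ≤ C.top, C.wt u ≤ 2 ^ l * θ →
      Dec θ (terms (C.top + 1) l) (5 ^ l) (C.reads u) (C.fa u)) ∧
    (∀ v u, u ≤ C.top → C.wt u ≤ C.wt v + 2 ^ l * θ →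
      Dec θ (terms (C.top + 1) l) (5 ^ l) (fun a => C.reads u a - C.reads v a) (C.hol v u)) := by
  induction l with
  | zero =>
    exact ⟨fun u hu hwt => base_A hC hu (by simpa using hwt),
      fun v u hu hwt => base_B hC hu (by simpa using hwt)⟩
  | succ l ih =>
    obtain ⟨hA, hB⟩ := ih
    have hM := terms_pos (s := C.top + 1) (by omega) l
    have hθ : θ ≤ 2 ^ l * θ := Nat.le_mul_of_pos_left _ (by positivity)
    have e2 : 2 ^ (l + 1) * θ = 2 * (2 ^ l * θ) := by ring
    have e5 : 5 ^ (l + 1) = 5 * 5 ^ l := by ring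
    have hA' : ∀ u ≤ C.top, C.wt u ≤ 2 * (2 ^ l * θ) →
        Dec θ ((C.top + 1) * (2 * terms (C.top + 1) l ^ 3)) (3 * 5 ^ l) (C.reads u) (C.fa u) :=
      fun u hu hwt => step_A hC hθ hM hA hB hu hwt
    refine ⟨fun u hu hwt => ?_, fun v u hu hwt => ?_⟩
    · rw [e2] at hwt
      refine (hA' u hu hwt).mono ?_ (by omega) fun _ => le_rfl
      have e0 : terms (C.top + 1) (l + 1) = 4 * (C.top + 1) ^ 2 * terms (C.top + 1) l ^ 5 := rfl
      rw [e0]
      have h1 : terms (C.top + 1) l ^ 3 ≤ terms (C.top + 1) l ^ 5 :=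
        Nat.pow_le_pow_right hM (by norm_num)
      calc (C.top + 1) * (2 * terms (C.top + 1) l ^ 3) ≤
          (C.top + 1) ^ 2 * (4 * terms (C.top + 1) l ^ 5) :=
            Nat.mul_le_mul (Nat.le_self_pow (by norm_num) _) (Nat.mul_le_mul (by norm_num) h1)
        _ = 4 * (C.top + 1) ^ 2 * terms (C.top + 1) l ^ 5 := by ring
    · rw [e2] at hwt
      rw [e5]
      exact step_B hC hθ hM hA' hB hu hwt

end Step

end Circuit

end Pool.Agent.RK
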