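import Pool.Agent.RK.Hole
import Pool.Agent.RK.Cross5

/-!
The final inequality.
-/

set_option linter.unusedSectionVars false

namespace Pool.Agent.RK

open Finset

open Pool.Agent.FL (Dep)

theorem one_le_models (n : ℕ) (y : Sym2 (Fin n) → Bool) : 1 ≤ models n y := by
  unfold models
  rw [Nat.one_le_iff_ne_zero, ← Nat.pos_iff_ne_zero, Fintype.card_pos_iff]
  exact ⟨⟨fun _ => true, fun _ _ _ => Or.inl rfl⟩⟩

namespace Circuit

variable {V : Type} [Fintype V] [DecidableEq V]

theorem abs_val_le (C : Circuit V) (y : V → Bool) : ∀ i, |C.val y i| ≤ C.aval y i := by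
  intro i
  induction i using Nat.strong_induction_on with
  | _ i ih =>
    rw [val, aval]
    rcases hg : C.gate i with ⟨S, f⟩ | ⟨j, k⟩ | ⟨j, k⟩
    · exact le_rfl
    · exact (abs_add_le _ _).trans (add_le_add (ih j j.isLt) (ih k k.isLt))
    · simp only [abs_mul]
      exact mul_le_mul (ih j j.isLt) (ih k k.isLt) (abs_nonneg _)
        ((abs_nonneg _).trans (ih j j.isLt))

end Circuit

section Bound

variable {n : ℕ}

/-- The bound for a sum of products. -/
theorem dec_bound {k θ M K : ℕ} {μ : Sym2 (Fin n) → ℕ} {P : (Sym2 (Fin n) → Bool) → ℝ}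
    (hP : Dec θ M K μ P) (hμ : ∀ v, μ v ≤ k) (hθ : 2 * k * θ ≤ Fintype.card (Sym2 (Fin n)))
    {β : ℝ} (hβ : 2 * (4 : ℝ) ^ k * β = 1) {Λ : ((Sym2 (Fin n) → Bool) → ℝ) →ₗ[ℝ] ℝ}
    {δ : ℝ} (hδ : 0 ≤ δ)
    (hΛ : ∀ (A B : Finset (Sym2 (Fin n))) (g h : (Sym2 (Fin n) → Bool) → ℝ),
        β * ((Fintype.card (Sym2 (Fin n)) : ℝ) * Fintype.card (Sym2 (Fin n))) ≤
          (A.card : ℝ) * B.card →
        Dep g Bᶜ → Dep h Aᶜ → ∀ κ : ℝ, 0 ≤ κ → (∀ y, |g y * h y| ≤ κ * models n y) →
        |Λ (g * h)| ≤ κ * δ) {κ : ℝ} (hκ0 : 0 ≤ κ) (hκ : ∀ y, P y ≤ κ * models n y) :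
    Λ P ≤ M * (κ * δ) := by
  obtain ⟨L, hM, hL, rfl⟩ := hP
  have hnn : ∀ T ∈ L, ∀ y, 0 ≤ tprod T y := fun T hT y => tprod_nonneg (hL T hT) y
  have key : ∀ T ∈ L, Λ (tprod T) ≤ κ * δ := by
    intro T hT
    have hle : ∀ y, tprod T y ≤ κ * models n y := by
      intro y
      refine le_trans ?_ (hκ y)
      have h1 : tprod T ≤ (L.map tprod).sum := by
        refine List.single_le_sum ?_ _ (List.mem_map_of_mem hT)
        intro g hg
        obtain ⟨T', hT', rfl⟩ := List.mem_map.mp hg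
        exact fun y => hnn T' hT' y
      exact h1 y
    obtain ⟨A, B, g, h, hAB, hg, hh, hT'⟩ := (hL T hT).split hμ hθ
    rw [hT']
    refine (le_abs_self _).trans (hΛ A B g h ?_ hg hh κ hκ0 fun y => ?_)
    · have h1 : ((Fintype.card (Sym2 (Fin n)) : ℝ) * Fintype.card (Sym2 (Fin n))) ≤
          2 * ((4 : ℝ) ^ k * ((A.card : ℝ) * B.card)) := by exact_mod_cast hAB
      have hβ0 : 0 ≤ β := by
        by_contra hcon
        push Not at hcon
        have : 2 * (4 : ℝ) ^ k * β < 0 := mul_neg_of_pos_of_neg (by positivity) hcon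
        linarith
      calc β * ((Fintype.card (Sym2 (Fin n)) : ℝ) * Fintype.card (Sym2 (Fin n))) ≤
          β * (2 * ((4 : ℝ) ^ k * ((A.card : ℝ) * B.card))) := mul_le_mul_of_nonneg_left h1 hβ0
        _ = (2 * (4 : ℝ) ^ k * β) * ((A.card : ℝ) * B.card) := by ring
        _ = (A.card : ℝ) * B.card := by rw [hβ, one_mul]
    · have h2 : g y * h y = tprod T y := by rw [hT']; rfl
      rw [h2, abs_of_nonneg (hnn T hT y)]
      exact hle y
  have hs : Λ (L.map tprod).sum ≤ L.length * (κ * δ) := by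
    clear hκ hM hnn hL
    induction L with
    | nil => simp
    | cons T L ih =>
      rw [List.map_cons, List.sum_cons, map_add, List.length_cons]
      have h1 := key T List.mem_cons_self
      have h2 := ih fun T' hT' => key T' (List.mem_cons_of_mem _ hT')
      push_cast
      linarith
  refine hs.trans (mul_le_mul_of_nonneg_right (by exact_mod_cast hM) (mul_nonneg hκ0 hδ))

theorem five_pow_clog {k : ℕ} (hk : 1 ≤ k) : 5 ^ Nat.clog 2 (4 * k ^ 2) ≤ 182 * k ^ 5 := by
  set l := Nat.clog 2 (4 * k ^ 2) with hl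
  have hk2 : 1 ≤ k ^ 2 := Nat.one_le_pow _ _ hk
  have h1 : 2 ^ l ≤ 8 * k ^ 2 := by
    have h2 := Nat.pow_pred_clog_lt_self (b := 2) (by norm_num) (x := 4 * k ^ 2) (by omega)
    rw [← hl] at h2
    have h3 : 1 ≤ l := by
      rw [hl]
      exact Nat.clog_pos (by norm_num) (by omega)
    obtain ⟨m, hm⟩ : ∃ m, l = m + 1 := ⟨l - 1, by omega⟩
    rw [hm] at h2 ⊢
    simp only [Nat.pred_succ] at h2
    rw [pow_succ]
    omega
  have h2 : (5 ^ l) ^ 2 ≤ (182 * k ^ 5) ^ 2 := by
    calc (5 ^ l) ^ 2 = 25 ^ l := by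
          rw [← pow_mul, mul_comm l 2, pow_mul]
          norm_num
      _ ≤ 32 ^ l := Nat.pow_le_pow_left (by norm_num) l
      _ = (2 ^ l) ^ 5 := by
          rw [← pow_mul, mul_comm l 5, pow_mul]
          norm_num
      _ ≤ (8 * k ^ 2) ^ 5 := Nat.pow_le_pow_left h1 5
      _ = 32768 * k ^ 10 := by ring
      _ ≤ 33124 * k ^ 10 := Nat.mul_le_mul_right _ (by norm_num)
      _ = (182 * k ^ 5) ^ 2 := by ring
  exact (Nat.pow_le_pow_iff_left (by norm_num)).mp h2

theorem main_bound {k : ℕ} (hk : 1 ≤ k) {C : Circuit (Sym2 (Fin n))} (hC : C.IsRead k)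
    {α κ : ℝ} (hα : 0 ≤ α) (hlow : ∀ y, (models n y : ℝ) ≤ α * C.val y C.top)
    (hup : ∀ y, C.aval y C.top ≤ κ * models n y) :
    (2 : ℝ) ^ ((n : ℝ) / (2 ^ (4 * k + 30) * k ^ 5)) ≤ 2 * α * κ * C.size := by
  have hm : ∀ y, (1 : ℝ) ≤ models n y := fun y => by exact_mod_cast one_le_models n y
  have hn : (0 : ℝ) ≤ n := Nat.cast_nonneg n
  -- a reference input
  have hy0 := hlow fun _ => false
  have hy1 := hup fun _ => false
  have hy2 := hm fun _ => false
  have hy3 := C.abs_val_le (fun _ => false) C.top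
  have hy4 : 0 ≤ C.aval (fun _ => false) C.top := (abs_nonneg _).trans hy3
  have hκ0 : 0 ≤ κ := by
    by_contra h
    push Not at h
    nlinarith
  have hακ : 1 ≤ α * κ := by
    have h1 : C.val (fun _ => false) C.top ≤ κ * models n fun _ => false :=
      (le_abs_self _).trans (hy3.trans hy1)
    have h2 := hy0.trans (mul_le_mul_of_nonneg_left h1 hα)
    by_contra h
    push Not at h
    nlinarith
  have hs1 : (1 : ℝ) ≤ C.size := by
    unfold Circuit.size
    push_cast
    have : (0 : ℝ) ≤ C.top := Nat.cast_nonneg _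
    linarith
  have hk' : (1 : ℝ) ≤ k := by exact_mod_cast hk
  have hk5 : (1 : ℝ) ≤ (k : ℝ) ^ 5 := one_le_pow₀ hk'
  have h16 : (2 : ℝ) ^ (4 * k + 30) = 16 ^ k * 2 ^ 30 := by
    rw [pow_add, pow_mul]
    norm_num
  have h4k : (0 : ℝ) < 4 ^ k := by positivity
  have h4k1 : (1 : ℝ) ≤ 4 ^ k := one_le_pow₀ (by norm_num)
  have h16' : (16 : ℝ) ^ k = 4 ^ k * 4 ^ k := by
    rw [← mul_pow]
    norm_num
  by_cases hcase : 2560 * 4 ^ k ≤ n
  · have hcase' : 2560 * (4 : ℝ) ^ k ≤ n := by exact_mod_cast hcase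
    set β : ℝ := 1 / (2 * 4 ^ k) with hβdef
    have hβ : 2 * (4 : ℝ) ^ k * β = 1 := by
      rw [hβdef]
      field_simp
    have hβ0 : 0 < β := by positivity
    have hβ1 : β ≤ 1 := by
      by_contra hcon
      push Not at hcon
      nlinarith
    have hβn : 1280 ≤ β * n := by
      have h1 := mul_le_mul_of_nonneg_left hcase' hβ0.le
      have h2 : β * (2560 * 4 ^ k) = 1280 * (2 * 4 ^ k * β) := by ring
      rw [h2, hβ] at h1
      linarith
    obtain ⟨Λ, h1, h2, h3⟩ := exists_functional hβ0 hβ1 hβn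
    set δ := Real.exp (-(β ^ 2 * n / 1536000)) with hδ
    have hδ0 : 0 < δ := Real.exp_pos _
    -- the decomposition
    set N := Fintype.card (Sym2 (Fin n)) with hN
    have hnN : n ≤ N := by
      have h4 : n ^ 2 ≤ 2 * N := by
        have h5 := half_sq_le_card (n := n)
        have h6 : (n : ℝ) ^ 2 ≤ 2 * Fintype.card (Sym2 (Fin n)) := by linarith
        exact_mod_cast h6
      have h5 : 2 ≤ n := by
        have : 1 ≤ 4 ^ k := Nat.one_le_pow _ _ (by norm_num)
        omega
      nlinarith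
    have hkN : 4 * k ≤ N := by
      have h4 : k < 4 ^ k := Nat.lt_pow_self (by norm_num)
      omega
    set θ := N / (2 * k) with hθdef
    have hθ : 2 * k * θ ≤ N := Nat.mul_div_le _ _
    have hgood : C.Good θ := by
      intro i hi S f hg
      obtain ⟨h4, h5⟩ := hC.leaf i hi S f hg
      refine ⟨h4, ?_⟩
      rw [hθdef, Nat.le_div_iff_mul_le (by omega)]
      rw [mul_comm]
      exact h5
    have hwt : C.wt C.top ≤ 2 ^ Nat.clog 2 (4 * k ^ 2) * θ := by
      have h4 : C.wt C.top ≤ k * N := by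
        unfold Circuit.wt
        refine (Finset.sum_le_sum fun a _ => hC.reads a).trans (le_of_eq ?_)
        rw [sum_const, card_univ, smul_eq_mul, mul_comm]
      have h5 : 4 * k ^ 2 ≤ 2 ^ Nat.clog 2 (4 * k ^ 2) := Nat.le_pow_clog (by norm_num) _
      have h6 : N < 2 * k * (θ + 1) := by
        rw [hθdef]
        exact Nat.lt_mul_div_succ _ (by omega)
      have h7 : N ≤ 4 * k * θ := by nlinarith
      calc C.wt C.top ≤ k * N := h4
        _ ≤ k * (4 * k * θ) := Nat.mul_le_mul_left _ h7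
        _ = 4 * k ^ 2 * θ := by ring
        _ ≤ _ := Nat.mul_le_mul_right _ h5
    have hdec := (Circuit.levels hgood (Nat.clog 2 (4 * k ^ 2))).1 C.top le_rfl hwt
    have h4 := dec_bound hdec hC.reads hθ hβ hδ0.le h3 hκ0 hup
    have h5 : (1 : ℝ) ≤ α * Λ (fun y => C.val y C.top) := by
      have h6 := h2 (fun y => α * C.val y C.top - models n y) fun y => by
        have := hlow y
        linarith
      have h7 : (fun y => α * C.val y C.top - (models n y : ℝ)) =
          α • (fun y => C.val y C.top) - fun y => (models n y : ℝ) := by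
        funext y
        rfl
      rw [h7, map_sub, map_smul, h1, smul_eq_mul] at h6
      linarith
    have h6 : Λ (fun y => C.val y C.top) ≤ Λ (C.fa C.top) := by
      have h7 := h2 (C.fa C.top - fun y => C.val y C.top) fun y => by
        have := (le_abs_self _).trans (C.abs_val_le y C.top)
        simp only [Pi.sub_apply, Circuit.fa]
        linarith
      rw [map_sub] at h7
      linarith
    set K := 5 ^ Nat.clog 2 (4 * k ^ 2) with hK
    have hK1 : 1 ≤ K := Nat.one_le_pow _ _ (by norm_num)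
    have hKk : (K : ℝ) ≤ 182 * k ^ 5 := by exact_mod_cast five_pow_clog hk
    have hM : ((Circuit.terms (C.top + 1) (Nat.clog 2 (4 * k ^ 2)) : ℕ) : ℝ) ≤
        (2 * C.size : ℝ) ^ K := by
      have h7 := Circuit.terms_le (s := C.top + 1) (by omega) (Nat.clog 2 (4 * k ^ 2))
      have h8 : Circuit.terms (C.top + 1) (Nat.clog 2 (4 * k ^ 2)) ≤
          2 * (C.top + 1) * Circuit.terms (C.top + 1) (Nat.clog 2 (4 * k ^ 2)) :=
        Nat.le_mul_of_pos_left _ (by omega)
      have h9 := h8.trans h7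
      unfold Circuit.size
      exact_mod_cast h9
    have h7 : (1 : ℝ) ≤ (2 * α * κ * C.size) ^ K * δ := by
      have h8 : (1 : ℝ) ≤ α * ((2 * C.size : ℝ) ^ K * (κ * δ)) := by
        refine h5.trans (mul_le_mul_of_nonneg_left (h6.trans (h4.trans ?_)) hα)
        exact mul_le_mul_of_nonneg_right hM (mul_nonneg hκ0 hδ0.le)
      have h9 : α * κ ≤ (α * κ) ^ K := le_self_pow₀ hακ (by omega)
      calc (1 : ℝ) ≤ α * ((2 * C.size : ℝ) ^ K * (κ * δ)) := h8
        _ = (α * κ) * ((2 * C.size : ℝ) ^ K * δ) := by ring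
        _ ≤ (α * κ) ^ K * ((2 * C.size : ℝ) ^ K * δ) :=
            mul_le_mul_of_nonneg_right h9 (by positivity)
        _ = (2 * α * κ * C.size) ^ K * δ := by
            rw [← mul_assoc, ← mul_pow]
            ring
    have h8 : Real.exp (β ^ 2 * n / 1536000) ≤ (2 * α * κ * C.size) ^ K := by
      have h9 : Real.exp (β ^ 2 * n / 1536000) * δ = 1 := by
        rw [hδ, ← Real.exp_add]
        simp
      have h10 := mul_le_mul_of_nonneg_left h7 (Real.exp_pos (β ^ 2 * n / 1536000)).le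
      calc Real.exp (β ^ 2 * n / 1536000) = Real.exp (β ^ 2 * n / 1536000) * 1 := (mul_one _).symm
        _ ≤ Real.exp (β ^ 2 * n / 1536000) * ((2 * α * κ * C.size) ^ K * δ) := h10
        _ = (2 * α * κ * C.size) ^ K * (Real.exp (β ^ 2 * n / 1536000) * δ) := by ring
        _ = (2 * α * κ * C.size) ^ K := by rw [h9, mul_one]
    have h9 : Real.exp (β ^ 2 * n / 1536000 / K) ≤ 2 * α * κ * C.size := by
      have h10 : 0 ≤ 2 * α * κ * (C.size : ℝ) := by
        have : 0 ≤ α * κ * (C.size : ℝ) := by positivity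
        linarith
      refine (pow_le_pow_iff_left₀ (Real.exp_pos _).le h10 (by omega : K ≠ 0)).mp ?_
      rw [← Real.exp_nat_mul]
      have h11 : (K : ℝ) * (β ^ 2 * n / 1536000 / K) = β ^ 2 * n / 1536000 := by
        have : (K : ℝ) ≠ 0 := by
          have : (1 : ℝ) ≤ K := by exact_mod_cast hK1
          linarith
        field_simp
      rw [h11]
      exact h8
    refine le_trans ?_ h9
    rw [Real.rpow_def_of_pos (by norm_num)]
    refine Real.exp_le_exp.mpr ?_
    have hlog : Real.log 2 ≤ 0.6931471808 := Real.log_two_lt_d9.le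
    have hlog0 : 0 ≤ Real.log 2 := Real.log_nonneg (by norm_num)
    have hK0 : (0 : ℝ) < K := by
      have : (1 : ℝ) ≤ K := by exact_mod_cast hK1
      linarith
    have hβ2 : β ^ 2 * (4 * 16 ^ k) = 1 := by
      have : β ^ 2 * (4 * 16 ^ k) = (2 * 4 ^ k * β) ^ 2 := by
        rw [h16']
        ring
      rw [this, hβ, one_pow]
    rw [h16]
    have e1 : Real.log 2 * ((n : ℝ) / (16 ^ k * 2 ^ 30 * k ^ 5)) =
        (n / 16 ^ k) * (Real.log 2 / (2 ^ 30 * k ^ 5)) := by
      have : (16 : ℝ) ^ k ≠ 0 := by positivity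
      field_simp
    have e2 : β ^ 2 * n / 1536000 / K = (n / 16 ^ k) * (1 / (6144000 * K)) := by
      have h10 : β ^ 2 = 1 / (4 * 16 ^ k) := by
        rw [eq_div_iff (by positivity)]
        exact hβ2
      rw [h10]
      have : (16 : ℝ) ^ k ≠ 0 := by positivity
      field_simp
      ring
    rw [e1, e2]
    refine mul_le_mul_of_nonneg_left ?_ (by positivity)
    rw [div_le_div_iff₀ (by positivity) (by positivity)]
    have h10 : Real.log 2 * (6144000 * K) ≤ 0.6931471808 * (6144000 * (182 * k ^ 5)) :=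
      mul_le_mul hlog (by linarith) (by positivity) (by norm_num)
    linarith
  · push Not at hcase
    have hcase' : (n : ℝ) ≤ 2560 * 4 ^ k := by exact_mod_cast hcase.le
    have h1 : (n : ℝ) / (2 ^ (4 * k + 30) * k ^ 5) ≤ 1 := by
      rw [div_le_one (by positivity), h16, h16']
      have h2 : (4 : ℝ) ^ k ≤ 4 ^ k * 4 ^ k := le_mul_of_one_le_right h4k.le h4k1
      have h3 : 4 ^ k * 4 ^ k * (2 : ℝ) ^ 30 ≤ 4 ^ k * 4 ^ k * 2 ^ 30 * (k : ℝ) ^ 5 :=
        le_mul_of_one_le_right (by positivity) hk5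
      nlinarith
    have h2 : (2 : ℝ) ^ ((n : ℝ) / (2 ^ (4 * k + 30) * k ^ 5)) ≤ 2 ^ (1 : ℝ) :=
      Real.rpow_le_rpow_of_exponent_le (by norm_num) h1
    rw [Real.rpow_one] at h2
    have h3 : 1 ≤ α * κ * C.size := by nlinarith
    linarith

end Bound

end Pool.Agent.RK
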