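import Mathlib

/-!
Packings of disjoint tuples and the number of crossing tuples of a random packing.
-/

namespace Pool.Agent.RK

open Finset

variable {n d : ℕ}

/-- The tuples of `d` different elements of `U`. -/
def tup (d : ℕ) (U : Finset (Fin n)) : Finset (Fin d → Fin n) :=
  univ.filter fun t => Function.Injective t ∧ ∀ i, t i ∈ U

theorem mem_tup {U : Finset (Fin n)} {t : Fin d → Fin n} :
    t ∈ tup d U ↔ Function.Injective t ∧ ∀ i, t i ∈ U := by
  simp [tup]

/-- The packings of `q` disjoint tuples in `U`. -/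
def packs (d q : ℕ) (U : Finset (Fin n)) : Finset (Fin q → Fin d → Fin n) :=
  univ.filter fun p => (Function.Injective fun w : Fin q × Fin d => p w.1 w.2) ∧
    ∀ i j, p i j ∈ U

theorem mem_packs {q : ℕ} {U : Finset (Fin n)} {p : Fin q → Fin d → Fin n} :
    p ∈ packs d q U ↔ (Function.Injective fun w : Fin q × Fin d => p w.1 w.2) ∧
      ∀ i j, p i j ∈ U := by
  simp [packs]

theorem cons_mem_packs {q : ℕ} {U : Finset (Fin n)} {t : Fin d → Fin n}
    {p : Fin q → Fin d → Fin n} :
    (Fin.cons t p : Fin (q + 1) → Fin d → Fin n) ∈ packs d (q + 1) U ↔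
      t ∈ tup d U ∧ p ∈ packs d q (U \ univ.image t) := by
  rw [mem_packs, mem_packs, mem_tup]
  constructor
  · rintro ⟨h1, h2⟩
    refine ⟨⟨fun a b hab => ?_, fun j => h2 0 j⟩, fun a b hab => ?_, fun i j => ?_⟩
    · have := @h1 ((0 : Fin (q + 1)), a) ((0 : Fin (q + 1)), b) hab
      exact (Prod.mk.inj this).2
    · have := @h1 (a.1.succ, a.2) (b.1.succ, b.2) hab
      have h3 := Prod.mk.inj this
      exact Prod.ext (Fin.succ_injective _ h3.1) h3.2
    · rw [mem_sdiff, mem_image]
      refine ⟨h2 i.succ j, ?_⟩
      rintro ⟨a, -, ha⟩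
      have := @h1 ((0 : Fin (q + 1)), a) (i.succ, j) ha
      exact Fin.succ_ne_zero i (Prod.mk.inj this).1.symm
  · rintro ⟨⟨h1, h2⟩, h3, h4⟩
    have h5 : ∀ i j, p i j ∈ U ∧ ∀ a, t a ≠ p i j := by
      intro i j
      have := h4 i j
      rw [mem_sdiff, mem_image] at this
      exact ⟨this.1, fun a ha => this.2 ⟨a, mem_univ _, ha⟩⟩
    refine ⟨?_, fun i j => ?_⟩
    · rintro ⟨i, j⟩ ⟨i', j'⟩ hab
      simp only at hab
      induction i using Fin.cases with
      | zero =>
        induction i' using Fin.cases with
        | zero =>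
          rw [Fin.cons_zero] at hab
          rw [h1 hab]
        | succ i' =>
          rw [Fin.cons_zero, Fin.cons_succ] at hab
          exact absurd hab ((h5 i' j').2 j)
      | succ i =>
        induction i' using Fin.cases with
        | zero =>
          rw [Fin.cons_zero, Fin.cons_succ] at hab
          exact absurd hab.symm ((h5 i j).2 j')
        | succ i' =>
          rw [Fin.cons_succ, Fin.cons_succ] at hab
          have := @h3 (i, j) (i', j') hab
          rw [(Prod.mk.inj this).1, (Prod.mk.inj this).2]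
    · induction i using Fin.cases with
      | zero => exact h2 j
      | succ i => exact (h5 i j).1

theorem sum_packs_succ {q : ℕ} (U : Finset (Fin n)) (F : (Fin (q + 1) → Fin d → Fin n) → ℝ) :
    ∑ p ∈ packs d (q + 1) U, F p =
      ∑ t ∈ tup d U, ∑ p ∈ packs d q (U \ univ.image t), F (Fin.cons t p) := by
  rw [Finset.sum_sigma']
  refine Finset.sum_bij' (fun p _ => ⟨p 0, Fin.tail p⟩) (fun w _ => Fin.cons w.1 w.2) ?_ ?_ ?_ ?_ ?_
  · intro p hp
    rw [mem_sigma]
    rw [← Fin.cons_self_tail p] at hp
    exact cons_mem_packs.mp hp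
  · rintro ⟨t, p⟩ h
    rw [mem_sigma] at h
    exact cons_mem_packs.mpr h
  · intro p _
    exact Fin.cons_self_tail p
  · rintro ⟨t, p⟩ _
    rfl
  · intro p _
    rw [Fin.cons_self_tail]

theorem card_tup (U : Finset (Fin n)) : (tup d U).card = U.card.descFactorial d := by
  have h1 : (tup d U).card = Fintype.card (Fin d ↪ U) := by
    rw [← Fintype.card_coe]
    refine Fintype.card_congr ?_
    exact
      { toFun := fun t => ⟨fun i => ⟨t.1 i, (mem_tup.mp t.2).2 i⟩, fun a b h => by
          have := (mem_tup.mp t.2).1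
          exact this (congrArg Subtype.val h)⟩
        invFun := fun e => ⟨fun i => (e i : Fin n), mem_tup.mpr
          ⟨fun a b h => e.injective (Subtype.ext h), fun i => (e i).2⟩⟩
        left_inv := fun t => rfl
        right_inv := fun e => rfl }
  rw [h1, Fintype.card_embedding_eq, Fintype.card_fin, Fintype.card_coe]

theorem card_sdiff_tup {U : Finset (Fin n)} {t : Fin d → Fin n} (ht : t ∈ tup d U) :
    (U \ univ.image t).card = U.card - d := by
  rw [mem_tup] at ht
  rw [card_sdiff_of_subset, card_image_of_injective _ ht.1]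
  · simp
  · intro v hv
    obtain ⟨i, -, rfl⟩ := mem_image.mp hv
    exact ht.2 i

/-- The number of packings in a set of `m` elements. -/
def packCount (d : ℕ) : ℕ → ℕ → ℕ
  | 0, _ => 1
  | q + 1, m => m.descFactorial d * packCount d q (m - d)

theorem card_packs : ∀ (q : ℕ) (U : Finset (Fin n)),
    ((packs d q U).card : ℝ) = packCount d q U.card := by
  intro q
  induction q with
  | zero =>
    intro U
    have : packs d 0 U = univ := by
      ext p
      rw [mem_packs]
      simp only [mem_univ, iff_true]
      exact ⟨fun a => a.1.elim0, fun i => i.elim0⟩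
    rw [this]
    simp [packCount]
  | succ q ih =>
    intro U
    have h1 := sum_packs_succ U (fun _ : Fin (q + 1) → Fin d → Fin n => (1 : ℝ))
    simp only [sum_const, nsmul_eq_mul, mul_one] at h1
    rw [h1]
    have h2 : ∀ t ∈ tup d U,
        ((packs d q (U \ univ.image t)).card : ℝ) = packCount d q (U.card - d) := by
      intro t ht
      rw [ih, card_sdiff_tup ht]
    rw [Finset.sum_congr rfl h2, sum_const, nsmul_eq_mul, card_tup, packCount]
    push_cast
    ring

theorem packs_pos : ∀ (q m : ℕ), d * q ≤ m → 0 < packCount d q m := by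
  intro q
  induction q with
  | zero => intro m _; simp [packCount]
  | succ q ih =>
    intro m hm
    rw [packCount]
    rw [Nat.mul_succ] at hm
    exact Nat.mul_pos (Nat.descFactorial_pos.mpr (by omega)) (ih _ (by omega))

/-- A random packing has many crossing tuples, if every large set has. -/
theorem pack_bound (X : (Fin d → Fin n) → Prop) [DecidablePred X] {γ ρ : ℝ} (hγ1 : γ ≤ 1)
    (hρ : 0 ≤ ρ) (hρ1 : ρ ≤ 1) : ∀ (q : ℕ) (U : Finset (Fin n)),
    (∀ U' ⊆ U, U.card ≤ U'.card + d * q → γ * (tup d U').card ≤ ((tup d U').filter X).card) →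
    ∑ p ∈ packs d q U, ∏ i, (if X (p i) then ρ else 1) ≤
      (1 - γ * (1 - ρ)) ^ q * (packs d q U).card := by
  have hl : 0 ≤ 1 - γ * (1 - ρ) := by nlinarith
  intro q
  induction q with
  | zero =>
    intro U _
    simp
  | succ q ih =>
    intro U hU
    rw [sum_packs_succ]
    have h1 : ∀ t ∈ tup d U, ∑ p ∈ packs d q (U \ univ.image t),
        ∏ i, (if X ((Fin.cons t p : Fin (q + 1) → Fin d → Fin n) i) then ρ else 1) ≤
        (if X t then ρ else 1) * ((1 - γ * (1 - ρ)) ^ q * packCount d q (U.card - d)) := by
      intro t ht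
      simp only [Fin.prod_univ_succ, Fin.cons_zero, Fin.cons_succ]
      rw [← Finset.mul_sum]
      refine mul_le_mul_of_nonneg_left ?_ (by split_ifs <;> linarith)
      have h2 := ih (U \ univ.image t) fun U' hU' hc => by
        have h3 := card_sdiff_tup ht
        refine hU U' (hU'.trans sdiff_subset) ?_
        rw [Nat.mul_succ]
        omega
      rwa [card_packs, card_sdiff_tup ht] at h2
    refine (Finset.sum_le_sum h1).trans ?_
    rw [← Finset.sum_mul, card_packs, packCount]
    have h4 : ∑ t ∈ tup d U, (if X t then ρ else 1) ≤ (1 - γ * (1 - ρ)) * (tup d U).card := by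
      have h5 : ∑ t ∈ tup d U, (if X t then ρ else 1) =
          (tup d U).card - (1 - ρ) * ((tup d U).filter X).card := by
        have h6 : ∀ t ∈ tup d U, (if X t then ρ else 1) = 1 - (1 - ρ) * (if X t then 1 else 0) := by
          intro t _
          split_ifs <;> ring
        rw [Finset.sum_congr rfl h6, Finset.sum_sub_distrib, ← Finset.mul_sum, Finset.sum_boole]
        simp
      have h7 := hU U subset_rfl (by omega)
      rw [h5]
      nlinarith
    rw [card_tup] at h4
    have h8 : 0 ≤ (1 - γ * (1 - ρ)) ^ q * (packCount d q (U.card - d) : ℝ) := by positivity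
    have h9 := mul_le_mul_of_nonneg_right h4 h8
    push_cast
    rw [pow_succ]
    nlinarith

end Pool.Agent.RK
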